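import Pool.Agent.Helper3K.OV.Wr
import Mathlib.GroupTheory.Abelianization.Defs
import Mathlib.GroupTheory.Solvable
import Mathlib.Algebra.Group.Commutator

/-!
# Equations and homomorphisms to wreath products
-/

set_option autoImplicit false

namespace Pool.Agent.Helper3K.TG

open Pool.Agent.N582.BS Pool.Agent.Helper3K.OV
open scoped commutatorElement

/-! ### Wreath products -/

theorem lift_base {A D B : Type} [Group D] [Group B] (f : A → D ≀ᵣ B)
    (hf : ∀ a, (f a).right = 1) (w : FreeGroup A) :
    (FreeGroup.lift f w).right = 1 ∧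
      ∀ z, (FreeGroup.lift f w).left z = FreeGroup.lift (fun a => (f a).left z) w := by
  induction w using FreeGroup.induction_on with
  | C1 => simp
  | of x => simp [hf]
  | inv_of x ih =>
    simp [hf]
  | mul x y hx hy =>
    obtain ⟨h1, h2⟩ := hx
    obtain ⟨h3, h4⟩ := hy
    refine ⟨by simp [h1, h3], fun z => ?_⟩
    simp [h1, h2, h4]

/-- The coordinates of a conjugate of an element of the base. -/
theorem conj_left {D B : Type} [Group D] [Group B] (C k : D ≀ᵣ B) (hk : k.right = 1) (z : B) :
    (C * k * C⁻¹).left z = C.left z * k.left (C.right⁻¹ * z) * (C.left z)⁻¹ ∧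
      (C * k * C⁻¹).right = 1 := by
  constructor
  · simp [hk]
  · simp [hk]

/-- The coordinates of a commutator. -/
theorem comm_left {D B : Type} [Group D] [CommGroup B] (U V : D ≀ᵣ B) (z : B) :
    (⁅U, V⁆ : D ≀ᵣ B).left z =
      U.left z * V.left (U.right⁻¹ * z) * (U.left (V.right⁻¹ * z))⁻¹ * (V.left z)⁻¹ ∧
      (⁅U, V⁆ : D ≀ᵣ B).right = 1 := by
  constructor
  · rw [commutatorElement_def]
    simp only [RegularWreathProduct.mul_left, RegularWreathProduct.inv_left,
      RegularWreathProduct.mul_right, RegularWreathProduct.inv_right, Pi.mul_apply, Pi.inv_apply]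
    have e1 : U.right * ((U.right * V.right)⁻¹ * z) = V.right⁻¹ * z := by
      rw [mul_inv_rev, mul_comm V.right⁻¹, mul_assoc, mul_inv_cancel_left]
    have e2 : V.right * ((U.right * V.right * U.right⁻¹)⁻¹ * z) = z := by
      rw [mul_inv_cancel_comm, mul_inv_cancel_left]
    rw [e1, e2]
  · rw [commutatorElement_def]
    simp

theorem pow_left_one {D : Type} [Group D] (C : D ≀ᵣ (Multiplicative ℤ)) :
    ∀ (p : ℕ) (z : Multiplicative ℤ), (∀ u, u < p → C.left ((C.right ^ u)⁻¹ * z) = 1) →
      (C ^ p).left z = 1 := by
  intro p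
  induction p with
  | zero => intro z _; simp
  | succ p ih =>
    intro z h
    rw [pow_succ', RegularWreathProduct.mul_left, Pi.mul_apply]
    have h0 := h 0 (Nat.succ_pos p)
    simp only [pow_zero, inv_one, one_mul] at h0
    rw [h0, one_mul]
    apply ih
    intro u hu
    have h1 := h (u + 1) (by omega)
    rw [pow_succ', mul_inv_rev, mul_assoc] at h1
    exact h1

theorem pow_left_base {D B : Type} [Group D] [Group B] (C : D ≀ᵣ B) (hC : C.right = 1) (p : ℕ)
    (z : B) : (C ^ p).left z = (C.left z) ^ p := by
  induction p with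
  | zero => simp
  | succ p ih =>
    rw [pow_succ', RegularWreathProduct.mul_left, Pi.mul_apply, hC, inv_one, one_mul, ih, pow_succ']

theorem pow_right {D B : Type} [Group D] [Group B] (C : D ≀ᵣ B) (p : ℕ) :
    (C ^ p).right = C.right ^ p := by
  induction p with
  | zero => simp
  | succ p ih => rw [pow_succ, pow_succ, RegularWreathProduct.mul_right, ih]

theorem inl_pow_left {D B : Type} [Group D] [Group B] (σ : B) (p : ℕ) :
    ((RegularWreathProduct.inl σ : D ≀ᵣ B) ^ p).left = 1 := by
  rw [← map_pow]; rfl

/-! ### Commuting tuples -/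

theorem lift_commute {A D : Type} [Group D] (c : A → D) (hc : ∀ a b, Commute (c a) (c b))
    (v w : FreeGroup A) : Commute (FreeGroup.lift c v) (FreeGroup.lift c w) := by
  have h1 : ∀ a, Commute (FreeGroup.lift c v) (c a) := by
    intro a
    induction v using FreeGroup.induction_on with
    | C1 => simp
    | of x => simpa using hc x a
    | inv_of x ih => simpa using (hc x a).inv_left
    | mul x y hx hy => rw [map_mul]; exact hx.mul_left hy
  induction w using FreeGroup.induction_on with
  | C1 => simp
  | of x => simpa using h1 x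
  | inv_of x ih => simpa using (h1 x).inv_right
  | mul x y hx hy => rw [map_mul]; exact hx.mul_right hy

theorem lift_eq_one_of_commute {A D : Type} [Group D] (c : A → D)
    (hc : ∀ a b, Commute (c a) (c b)) {w : FreeGroup A} (hw : w ∈ commutator (FreeGroup A)) :
    FreeGroup.lift c w = 1 := by
  have h : commutator (FreeGroup A) ≤ (FreeGroup.lift c).ker := by
    rw [commutator_def, Subgroup.commutator_le]
    intro a _ b _
    rw [MonoidHom.mem_ker, map_commutatorElement, commutatorElement_eq_one_iff_commute]
    exact lift_commute c hc a b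
  exact h hw

/-! ### One-variable equations and pairs of groups -/

/-- Every element `h` of `H` has a shadow `y` in `G`: all equations with coefficients `c'` which `h`
satisfies are satisfied by `y` for the coefficients `c`. -/
def AC {ι G H : Type} [Group G] [Group H] (c : ι → G) (c' : ι → H) : Prop :=
  ∀ h : H, ∃ y : G, ∀ w : FreeGroup (Option ι),
    FreeGroup.lift (val c' h) w = 1 → FreeGroup.lift (val c y) w = 1

theorem AC.of_wreath {ι G H : Type} [Group G] [Group H] (c : ι → G) (c' : ι → H)
    (h : ∀ x : H, ∃ (B : Type) (_ : Group B) (Θ : H →* G ≀ᵣ B), (Θ x).right = 1 ∧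
      ∀ i, (Θ (c' i)).right = 1 ∧ (Θ (c' i)).left 1 = c i) : AC c c' := by
  intro x
  obtain ⟨B, _, Θ, hx, hc⟩ := h x
  refine ⟨(Θ x).left 1, fun w hw => ?_⟩
  have h1 : ∀ o, (Θ (val c' x o)).right = 1 := by
    intro o
    cases o with
    | none => exact hx
    | some i => exact (hc i).1
  have h2 := (lift_base (fun o => Θ (val c' x o)) h1 w).2 1
  have h3 : FreeGroup.lift (fun o => Θ (val c' x o)) w = Θ (FreeGroup.lift (val c' x) w) := by
    have : FreeGroup.lift (fun o => Θ (val c' x o)) = Θ.comp (FreeGroup.lift (val c' x)) := by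
      apply FreeGroup.ext_hom
      intro a
      simp
    rw [this]; rfl
  rw [h3, hw, map_one] at h2
  have h4 : (fun o => (Θ (val c' x o)).left 1) = val c ((Θ x).left 1) := by
    funext o
    cases o with
    | none => rfl
    | some i => exact (hc i).2
  rw [h4] at h2
  exact h2.symm

theorem AC.comp {ι κ G G' H : Type} [Group G] [Group G'] [Group H] {c : ι → G} {X : κ → G'}
    {X' : κ → H} (V : ι → FreeGroup κ) (h1 : AC c (fun i => FreeGroup.lift X (V i)))
    (h2 : AC X X') : AC c (fun i => FreeGroup.lift X' (V i)) := by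
  intro h
  obtain ⟨y', hy'⟩ := h2 h
  obtain ⟨y, hy⟩ := h1 y'
  refine ⟨y, fun w hw => hy w ?_⟩
  -- the substituted word
  let s : FreeGroup (Option ι) →* FreeGroup (Option κ) :=
    FreeGroup.lift (fun o => match o with
      | none => FreeGroup.of none
      | some i => FreeGroup.map some (V i))
  have key : ∀ {M : Type} [Group M] (Z : κ → M) (m : M),
      (FreeGroup.lift (val Z m)).comp s = FreeGroup.lift (val (fun i => FreeGroup.lift Z (V i)) m) := by
    intro M _ Z m
    apply FreeGroup.ext_hom
    intro o
    cases o with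
    | none => simp [s, val]
    | some i =>
      simp only [s, MonoidHom.comp_apply, FreeGroup.lift_apply_of, val]
      have : (FreeGroup.lift (val Z m)).comp (FreeGroup.map some) = FreeGroup.lift Z := by
        apply FreeGroup.ext_hom
        intro k
        simp [val]
      exact DFunLike.congr_fun this (V i)
  have h3 := hy' (s w) (by
    have := DFunLike.congr_fun (key X' h) w
    rw [MonoidHom.comp_apply] at this
    rw [this]; exact hw)
  have := DFunLike.congr_fun (key X y') w
  rw [MonoidHom.comp_apply] at this
  rw [← this]; exact h3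

end Pool.Agent.Helper3K.TG
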