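import Pool.Agent.Helper3K.TG.Main

/-!
# Equations in derived subgroups
-/

set_option autoImplicit false

namespace Pool.Agent.Helper3K.TG

open Pool.Agent.N582.BS Pool.Agent.Helper3K.OV
open scoped commutatorElement

/-- The homomorphism between free groups which belongs to the substitution `subst c`. -/
def substHom {n k : ℕ} (c : Fin n → List (Fin k × Bool)) :
    FreeGroup (Option (Fin n)) →* FreeGroup (Option (Fin k)) :=
  FreeGroup.lift (val (fun i => FreeGroup.map some (FreeGroup.mk (c i))) (FreeGroup.of none))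

theorem mk_eq_ev {A : Type} (w : List (A × Bool)) : FreeGroup.mk w = ev FreeGroup.of w := by
  rw [ev_eq_lift]
  have h : (FreeGroup.lift (FreeGroup.of : A → FreeGroup A)) = MonoidHom.id _ := by
    apply FreeGroup.ext_hom
    intro i
    simp
  rw [h]
  rfl

theorem mk_subst {n k : ℕ} (c : Fin n → List (Fin k × Bool)) (w : List (Option (Fin n) × Bool)) :
    FreeGroup.mk (subst c w) = substHom c (FreeGroup.mk w) := by
  have h0 : (FreeGroup.of : Option (Fin k) → FreeGroup (Option (Fin k))) =
      val (fun i => FreeGroup.of (some i)) (FreeGroup.of none) := by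
    funext o
    cases o <;> rfl
  rw [mk_eq_ev (subst c w), h0, ev_subst, ev_eq_lift, substHom]
  congr 2
  funext o
  cases o with
  | none => rfl
  | some i =>
    show ev (fun i => FreeGroup.of (some i)) (c i) = FreeGroup.map some (FreeGroup.mk (c i))
    rw [ev_eq_lift]
    have h : (FreeGroup.lift (fun i : Fin k => (FreeGroup.of (some i) : FreeGroup (Option (Fin k))))) =
        FreeGroup.map some := by
      apply FreeGroup.ext_hom
      intro i
      simp
    rw [h]

/-- homomorphisms preserve the derived series -/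
theorem map_derived {G H : Type} [Group G] [Group H] (f : G →* H) {d : ℕ} {g : G}
    (hg : g ∈ derivedSeries G d) : f g ∈ derivedSeries H d :=
  map_derivedSeries_le_derivedSeries f d (Subgroup.mem_map_of_mem f hg)

/-! ### Adding a letter -/

/-- The word `[u, e]`, where `e` is the first new letter. -/
def comW {n : ℕ} (u : List (Option (Fin n) × Bool)) : List (Option (Fin (n + 3)) × Bool) :=
  up u ++ [(letE n, true)] ++ winv (up u) ++ [(letE n, false)]

theorem ev_comW {n : ℕ} {H : Type} [Group H] (f : Option (Fin (n + 3)) → H)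
    (u : List (Option (Fin n) × Bool)) :
    ev f (comW u) = ⁅ev (fun o => f (upLetter o)) u, f (letE n)⁆ := by
  rw [comW, ev_append, ev_append, ev_append, ev_winv, ev_up, ev_cons, ev_cons, ev_nil,
    commutatorElement_def]
  simp

theorem primrec_comW (n : ℕ) : Primrec (comW (n := n)) := by
  unfold comW
  exact Primrec.list_append.comp
    (Primrec.list_append.comp (Primrec.list_append.comp (primrec_up n) (Primrec.const _))
      ((primrec_winv (n + 3)).comp (primrec_up n))) (Primrec.const _)

/-- An equation `u` over a group is solvable if and only if the equation `[u, e] = 1` is solvable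
over its free product with the free group with basis `e`, `s`, `t`. -/
theorem comW_iff {n : ℕ} (r : FreeGroup (Fin n)) (u : List (Option (Fin n) × Bool)) :
    OneVarEq r u ↔ OneVarEq (rel3 r) (comW u) := by
  have hrel : ∀ w ∈ ({r} : Set (FreeGroup (Fin n))),
      FreeGroup.lift (fun i => (PresentedGroup.of (Fin.castAdd 3 i) : OneRel (rel3 r))) w = 1 := by
    intro w hw
    rw [Set.mem_singleton_iff.1 hw]
    have h1 : FreeGroup.lift (fun i => (PresentedGroup.of (Fin.castAdd 3 i) : OneRel (rel3 r))) =
        (PresentedGroup.mk ({rel3 r} : Set (FreeGroup (Fin (n + 3))))).comp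
          (FreeGroup.map (Fin.castAdd 3)) := by
      apply FreeGroup.ext_hom
      intro i
      simp [PresentedGroup.of]
    rw [h1]
    exact PresentedGroup.one_of_mem (rels := {rel3 r}) (Set.mem_singleton _)
  let j : OneRel r →* OneRel (rel3 r) := PresentedGroup.toGroup hrel
  have hj : ∀ i, j (PresentedGroup.of i) = PresentedGroup.of (Fin.castAdd 3 i) :=
    fun i => PresentedGroup.toGroup.of hrel
  constructor
  · rintro ⟨g, hg⟩
    refine ⟨j g, ?_⟩
    rw [evalAt_eq, ev_comW]
    have h1 : ev (fun o => val (fun i => (PresentedGroup.of i : OneRel (rel3 r))) (j g)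
        (upLetter o)) u = 1 := by
      have h2 := map_ev j (val (fun i => PresentedGroup.of i) g) u
      rw [← evalAt_eq, hg, map_one] at h2
      rw [h2]
      congr 1
      funext o
      cases o with
      | none => rfl
      | some i => exact (hj i).symm
    rw [h1, commutatorElement_one_left]
  · rintro ⟨h, hh⟩
    -- the homomorphism to `G * ⟨e⟩`
    let f : Fin (n + 3) → K (OneRel r) :=
      Fin.addCases (fun i => emb (PresentedGroup.of i)) ![eps, 1, 1]
    have hf : ∀ w ∈ ({rel3 r} : Set (FreeGroup (Fin (n + 3)))), FreeGroup.lift f w = 1 := by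
      intro w hw
      rw [Set.mem_singleton_iff.1 hw, rel3]
      have h1 : (FreeGroup.lift f).comp (FreeGroup.map (Fin.castAdd 3)) =
          (emb : OneRel r →* K (OneRel r)).comp
            (PresentedGroup.mk ({r} : Set (FreeGroup (Fin n)))) := by
        apply FreeGroup.ext_hom
        intro i
        simp [f, PresentedGroup.of]
      have h2 := DFunLike.congr_fun h1 r
      rw [MonoidHom.comp_apply, MonoidHom.comp_apply,
        PresentedGroup.one_of_mem (rels := {r}) (Set.mem_singleton r), map_one] at h2
      exact h2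
    let Φ : OneRel (rel3 r) →* K (OneRel r) := PresentedGroup.toGroup hf
    have hΦ : ∀ i, Φ (PresentedGroup.of i) = f i := fun i => PresentedGroup.toGroup.of hf
    rw [evalAt_eq, ev_comW] at hh
    have h1 := congrArg Φ hh
    rw [map_commutatorElement, map_one, map_ev, commutatorElement_eq_one_iff_mul_comm] at h1
    have hE : Φ (val (fun i => (PresentedGroup.of i : OneRel (rel3 r))) h (letE n)) = eps := by
      show Φ (PresentedGroup.of (Fin.natAdd n 0)) = eps
      rw [hΦ]
      simp only [f, Fin.addCases_right]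
      rfl
    rw [hE] at h1
    have h2 := tau_eq_one h1
    refine ⟨tau (Φ h), ?_⟩
    rw [evalAt_eq]
    rw [map_ev] at h2
    rw [← h2]
    congr 1
    funext o
    cases o with
    | none => rfl
    | some i =>
      show (PresentedGroup.of i : OneRel r) = tau (Φ (PresentedGroup.of (Fin.castAdd 3 i)))
      rw [hΦ]
      simp only [f, Fin.addCases_left]
      rw [tau_emb]

/-! ### Nested commutators -/

/-- The left-normed commutators `[…[[v, c₁], c₂], …, c_k]` where `v` is an element of the free group
with basis `X`, `Y`, `x` (the variable `x` is `none`) and `c₁, …, c_k` are elements of the `d`-th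
derived subgroup of the free group with basis `X`, `Y`. -/
def Nested (d : ℕ) : ℕ → FreeGroup (Option (Fin 2)) → Prop
  | 0, _ => True
  | k + 1, w => ∃ v, Nested d k v ∧ ∃ c ∈ derivedSeries (FreeGroup (Fin 2)) d,
      w = ⁅v, FreeGroup.map some c⁆

/-- Nested commutators of depth `k ≤ d` are in the `k`-th derived subgroup. -/
theorem nested_mem {d : ℕ} : ∀ {k : ℕ} {w : FreeGroup (Option (Fin 2))}, k ≤ d → Nested d k w →
    w ∈ derivedSeries (FreeGroup (Option (Fin 2))) k
  | 0, w, _, _ => by
    rw [derivedSeries_zero]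
    exact Subgroup.mem_top _
  | k + 1, w, hk, ⟨v, hv, c, hc, hw⟩ => by
    rw [hw, derivedSeries_succ]
    exact Subgroup.commutator_mem_commutator (nested_mem (by omega) hv)
      (derivedSeries_antitone _ (by omega) (map_derived _ hc))

theorem nested_map {d : ℕ} (φ : FreeGroup (Option (Fin 2)) →* FreeGroup (Option (Fin 2)))
    (ψ : FreeGroup (Fin 2) →* FreeGroup (Fin 2))
    (h : ∀ c, φ (FreeGroup.map some c) = FreeGroup.map some (ψ c)) :
    ∀ {k : ℕ} {w : FreeGroup (Option (Fin 2))}, Nested d k w → Nested d k (φ w)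
  | 0, _, _ => trivial
  | k + 1, w, ⟨v, hv, c, hc, hw⟩ => by
    refine ⟨φ v, nested_map φ ψ h hv, ψ c, map_derived _ hc, ?_⟩
    rw [hw, map_commutatorElement, h]

theorem lift_mem {d m : ℕ} (s : FreeGroup (Fin m)) (V : Fin m → FreeGroup (Fin 2))
    (hV : ∀ i, V i ∈ derivedSeries (FreeGroup (Fin 2)) d) :
    FreeGroup.lift V s ∈ derivedSeries (FreeGroup (Fin 2)) d := by
  induction s using FreeGroup.induction_on with
  | C1 => rw [map_one]; exact one_mem _
  | of x => rw [FreeGroup.lift_apply_of]; exact hV x
  | inv_of x ih => rw [map_inv]; exact inv_mem ih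
  | mul x y hx hy => rw [map_mul]; exact mul_mem hx hy

theorem nested_comW {d k : ℕ} (V : Fin (2 + 3) → FreeGroup (Fin 2))
    (hV : ∀ i, V i ∈ derivedSeries (FreeGroup (Fin 2)) d) (w : List (Option (Fin 2) × Bool))
    (hw : Nested d k (FreeGroup.mk w)) :
    Nested d (k + 1) (FreeGroup.mk (subst (fun i => (V i).toWord) (comW w))) := by
  set c : Fin (2 + 3) → List (Fin 2 × Bool) := fun i => (V i).toWord with hc
  have hcV : ∀ i, FreeGroup.mk (c i) = V i := fun i => FreeGroup.mk_toWord
  let φ : FreeGroup (Option (Fin 2)) →* FreeGroup (Option (Fin 2)) :=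
    (substHom c).comp (FreeGroup.map upLetter)
  have h1 : FreeGroup.mk (subst c (comW w)) =
      ⁅φ (FreeGroup.mk w), FreeGroup.map some (V (Fin.natAdd 2 0))⁆ := by
    rw [mk_subst, mk_eq_ev (comW w), map_ev, ev_comW]
    congr 1
    · rw [ev_eq_lift]
      have h2 : FreeGroup.lift (fun o => (substHom c) (FreeGroup.of (upLetter (n := 2) o))) = φ := by
        apply FreeGroup.ext_hom
        intro o
        simp [φ]
      rw [h2]
    · show substHom c (FreeGroup.of (letE 2)) = _
      rw [substHom, FreeGroup.lift_apply_of]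
      show FreeGroup.map some (FreeGroup.mk (c (Fin.natAdd 2 0))) = _
      rw [hcV]
  rw [h1]
  refine ⟨_, ?_, _, hV _, rfl⟩
  refine nested_map φ (FreeGroup.lift (fun i => V (Fin.castAdd 3 i))) (fun x => ?_) hw
  have h3 : φ.comp (FreeGroup.map some) =
      (FreeGroup.map some).comp (FreeGroup.lift (fun i => V (Fin.castAdd 3 i))) := by
    apply FreeGroup.ext_hom
    intro i
    simp only [φ, MonoidHom.comp_apply, FreeGroup.map.of, FreeGroup.lift_apply_of, substHom]
    show FreeGroup.map some (FreeGroup.mk (c (Fin.castAdd 3 i))) = _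
    rw [hcV]
  exact DFunLike.congr_fun h3 x

/-- **The reduction.** -/
theorem exists_nested (d k : ℕ) {n : ℕ} (r : FreeGroup (Fin n)) :
    ∃ R ∈ derivedSeries (FreeGroup (Fin 2)) d,
      ∃ T : List (Option (Fin n) × Bool) → List (Option (Fin 2) × Bool), Primrec T ∧
        ∀ w, Nested d k (FreeGroup.mk (T w)) ∧ (OneVarEq r w ↔ OneVarEq R (T w)) := by
  induction k with
  | zero =>
    obtain ⟨V, hV, hS⟩ := exists_shadow d r
    obtain ⟨j, -, h2, h3⟩ := embedding r V hS
    refine ⟨FreeGroup.lift V r, lift_mem r V hV, subst (fun i => (V i).toWord), primrec_subst _,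
      fun w => ⟨trivial, ?_⟩⟩
    rw [oneVarEq_iff_solvesAll, oneVarEq_iff_solvesAll]
    exact solvesAll_iff r _ _ j h2 h3 [w]
  | succ k ih =>
    obtain ⟨R, -, T, hT, hTw⟩ := ih
    obtain ⟨V, hV, hS⟩ := exists_shadow d (rel3 R)
    obtain ⟨j, -, h2, h3⟩ := embedding (rel3 R) V hS
    refine ⟨FreeGroup.lift V (rel3 R), lift_mem _ V hV,
      fun w => subst (fun i => (V i).toWord) (comW (T w)), ?_, fun w => ⟨?_, ?_⟩⟩
    · exact (primrec_subst _).comp ((primrec_comW 2).comp hT)
    · exact nested_comW V hV (T w) (hTw w).1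
    · rw [(hTw w).2, comW_iff, oneVarEq_iff_solvesAll, oneVarEq_iff_solvesAll]
      exact solvesAll_iff (rel3 R) _ _ j h2 h3 [comW (T w)]

end Pool.Agent.Helper3K.TG
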