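import Mathlib.Tactic
import Mathlib.Algebra.BigOperators.Intervals
import Mathlib.Algebra.Order.BigOperators.Group.Finset

/-!
# The arithmetic of the positions
-/

set_option autoImplicit false

namespace Pool.Agent.Helper3K.TG

open Finset

/-- The number with digits `d`. -/
def S (b : ℤ) (N : ℕ) (d : ℕ → ℤ) : ℤ := ∑ a ∈ range N, d a * b ^ (a + 1)

theorem exp_zero {b D : ℤ} (hD : D < b) : ∀ (N : ℕ) (d : ℕ → ℤ) (δ : ℤ),
    (∀ a, |d a| ≤ D) → |δ| ≤ D → S b N d + δ = 0 → δ = 0 ∧ ∀ a < N, d a = 0 := by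
  intro N
  induction N with
  | zero =>
    intro d δ _ _ h
    simp only [S, range_zero, sum_empty, zero_add] at h
    exact ⟨h, fun a ha => by omega⟩
  | succ N ih =>
    intro d δ hd hδ h
    have h1 : S b (N + 1) d = b * (S b N (fun a => d (a + 1)) + d 0) := by
      unfold S
      rw [sum_range_succ', mul_add, mul_sum]
      congr 1
      · apply sum_congr rfl
        intro a _
        ring
      · ring
    have hdvd : b ∣ δ := by
      refine ⟨-(S b N (fun a => d (a + 1)) + d 0), ?_⟩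
      rw [h1] at h
      linarith
    have hδ0 : δ = 0 := by
      apply Int.eq_zero_of_abs_lt_dvd hdvd
      exact lt_of_le_of_lt hδ hD
    have hb : b ≠ 0 := by
      have : 0 ≤ |δ| := abs_nonneg δ
      intro hb
      linarith
    have h2 : S b N (fun a => d (a + 1)) + d 0 = 0 := by
      rw [h1, hδ0, add_zero] at h
      exact (mul_eq_zero.1 h).resolve_left hb
    obtain ⟨h3, h4⟩ := ih (fun a => d (a + 1)) (d 0) (fun a => hd _) (hd 0) h2
    refine ⟨hδ0, fun a ha => ?_⟩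
    cases a with
    | zero => exact h3
    | succ a => exact h4 a (by omega)

/-- The combination of four positions. -/
def comb (c₁ c₂ c₃ c₄ : ℤ) (a b c f : ℕ) (t : ℕ) : ℤ :=
  c₁ * (if t = a then 1 else 0) + c₂ * (if t = b then 1 else 0) + c₃ * (if t = c then 1 else 0) +
    c₄ * (if t = f then 1 else 0)

theorem S_comb {b' : ℤ} {N : ℕ} {c₁ c₂ c₃ c₄ : ℤ} {a b c f : ℕ} (ha : a < N) (hb : b < N)
    (hc : c < N) (hf : f < N) :
    S b' N (comb c₁ c₂ c₃ c₄ a b c f) =
      c₁ * b' ^ (a + 1) + c₂ * b' ^ (b + 1) + c₃ * b' ^ (c + 1) + c₄ * b' ^ (f + 1) := by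
  have key : ∀ (e : ℤ) (s : ℕ), s < N →
      ∑ t ∈ range N, (e * (if t = s then 1 else 0)) * b' ^ (t + 1) = e * b' ^ (s + 1) := by
    intro e s hs
    rw [sum_eq_single s]
    · simp
    · intro t _ ht; simp [ht]
    · intro h; exact absurd (mem_range.2 hs) h
  unfold S comb
  simp only [add_mul, sum_add_distrib]
  rw [key _ a ha, key _ b hb, key _ c hc, key _ f hf]

theorem abs_comb {c₁ c₂ c₃ c₄ : ℤ} (h₁ : |c₁| ≤ 1) (h₂ : |c₂| ≤ 1) (h₃ : |c₃| ≤ 1) (h₄ : |c₄| ≤ 1)
    (a b c f t : ℕ) : |comb c₁ c₂ c₃ c₄ a b c f t| ≤ 4 := by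
  rw [abs_le] at *
  unfold comb
  split_ifs <;> constructor <;> linarith

theorem comb_support (c₁ c₂ c₃ c₄ : ℤ) (a b c f : ℕ) (N : ℕ) :
    ((range N).filter (fun t => comb c₁ c₂ c₃ c₄ a b c f t ≠ 0)).card ≤ 4 := by
  refine le_trans (card_le_card (t := {a, b, c, f}) ?_) card_le_four
  intro t ht
  rw [mem_filter] at ht
  by_contra hcon
  simp only [mem_insert, mem_singleton, not_or] at hcon
  obtain ⟨h1, h2, h3, h4⟩ := hcon
  exact ht.2 (by simp [comb, h1, h2, h3, h4])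

section

variable (m : ℕ)

/-- The base for the first coordinates. -/
def bA : ℕ := m + 5

/-- The bound for the first coordinates. -/
def bX : ℕ := 4 * bA m ^ (5 * m)

/-- The base for the second coordinates. -/
def bM : ℕ := 2 * bX m * (2 * m + 8) + 1

/-- **The set of the bad positions.** -/
theorem exists_Z (l₁ l₂ : ℤ) (h₂ : l₂ ≠ 0) : ∃ Z : Finset ℕ, Z.card ≤ 4 ∧
    ∀ (x δ c₁ c₂ c₃ c₄ : ℤ) (a b c f : ℕ), |x| ≤ bX m → |δ| ≤ 2 * m + 2 →
      |c₁| ≤ 1 → |c₂| ≤ 1 → |c₃| ≤ 1 → |c₄| ≤ 1 → a < 5 * m → b < 5 * m → c < 5 * m → f < 5 * m →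
      l₁ * x + l₂ * (c₁ * (bM m : ℤ) ^ (a + 1) + c₂ * (bM m : ℤ) ^ (b + 1) +
        c₃ * (bM m : ℤ) ^ (c + 1) + c₄ * (bM m : ℤ) ^ (f + 1) + δ) = 0 →
      (∀ t, t < 5 * m → comb c₁ c₂ c₃ c₄ a b c f t ≠ 0 → t ∈ Z) ∧
      ((∃ t, t < 5 * m ∧ comb c₁ c₂ c₃ c₄ a b c f t ≠ 0) →
        ∀ t ∈ Z, comb c₁ c₂ c₃ c₄ a b c f t ≠ 0) := by
  -- the general statement
  let P : ℤ → (ℕ → ℤ) → ℤ → Prop := fun x d δ => |x| ≤ bX m ∧ (∀ a, |d a| ≤ 4) ∧
    |δ| ≤ 2 * m + 2 ∧ ((range (5 * m)).filter (fun t => d t ≠ 0)).card ≤ 4 ∧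
    l₁ * x + l₂ * (S (bM m) (5 * m) d + δ) = 0
  have hX0 : (0 : ℤ) ≤ bX m := by positivity
  have hM : ((bM m : ℕ) : ℤ) = 2 * bX m * (2 * m + 8) + 1 := by unfold bM; push_cast; ring
  have hm0 : (0 : ℤ) ≤ m := by positivity
  -- two solutions are proportional
  have hprop : ∀ x d δ x' d' δ', P x d δ → P x' d' δ' →
      ∀ a, a < 5 * m → x * d' a = x' * d a := by
    rintro x d δ x' d' δ' ⟨hx, hd, hδ, _, he⟩ ⟨hx', hd', hδ', _, he'⟩ a ha
    have h1 : x * (S (bM m) (5 * m) d' + δ') = x' * (S (bM m) (5 * m) d + δ) := by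
      apply mul_left_cancel₀ h₂
      linear_combination x * he' - x' * he
    have h2 : S (bM m) (5 * m) (fun a => x * d' a - x' * d a) + (x * δ' - x' * δ) = 0 := by
      have h3 : S (bM m) (5 * m) (fun a => x * d' a - x' * d a) =
          x * S (bM m) (5 * m) d' - x' * S (bM m) (5 * m) d := by
        unfold S
        rw [mul_sum, mul_sum, ← sum_sub_distrib]
        apply sum_congr rfl
        intro a _
        ring
      rw [h3]
      linear_combination h1
    have hbd : ∀ y z y' z' : ℤ, |y| ≤ bX m → |y'| ≤ bX m → |z| ≤ 2 * m + 8 - 4 →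
        |z'| ≤ 2 * m + 8 - 4 → |y * z' - y' * z| ≤ 2 * bX m * (2 * m + 8) := by
      intro y z y' z' hy hy' hz hz'
      have e1 : |y * z'| ≤ bX m * (2 * m + 8 - 4) := by
        rw [abs_mul]; exact mul_le_mul hy hz' (abs_nonneg _) hX0
      have e2 : |y' * z| ≤ bX m * (2 * m + 8 - 4) := by
        rw [abs_mul]; exact mul_le_mul hy' hz (abs_nonneg _) hX0
      have e3 : |y * z' - y' * z| ≤ |y * z'| + |y' * z| := abs_sub _ _
      nlinarith
    have h4 := (exp_zero (b := (bM m : ℤ)) (D := 2 * bX m * (2 * m + 8)) (by rw [hM]; linarith)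
      (5 * m) (fun a => x * d' a - x' * d a) (x * δ' - x' * δ)
      (fun a => hbd x (d a) x' (d' a) hx hx' (by have := hd a; linarith) (by have := hd' a; linarith))
      (hbd x δ x' δ' hx hx' (by linarith) (by linarith)) h2).2 a ha
    linarith
  -- a solution with `x = 0` is zero
  have hzero : ∀ d δ, P 0 d δ → ∀ a, a < 5 * m → d a = 0 := by
    rintro d δ ⟨_, hd, hδ, _, he⟩ a ha
    have h1 : S (bM m) (5 * m) d + δ = 0 := by
      rw [mul_zero, zero_add] at he
      exact (mul_eq_zero.1 he).resolve_left h₂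
    have hX1 : (1 : ℤ) ≤ bX m := by
      have : 0 < bX m := by unfold bX bA; positivity
      exact_mod_cast this
    refine (exp_zero (b := (bM m : ℤ)) (D := 2 * m + 8) ?_ (5 * m) d δ ?_ ?_ h1).2 a ha
    · rw [hM]; nlinarith
    · intro a; have := hd a; linarith
    · linarith
  by_cases hex : ∃ x d δ, P x d δ ∧ ∃ t, t < 5 * m ∧ d t ≠ 0
  · obtain ⟨x₀, d₀, δ₀, hP₀, t₀, ht₀, hdt₀⟩ := hex
    have hx₀ : x₀ ≠ 0 := by
      intro h
      rw [h] at hP₀
      exact hdt₀ (hzero d₀ δ₀ hP₀ t₀ ht₀)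
    refine ⟨(range (5 * m)).filter (fun t => d₀ t ≠ 0), hP₀.2.2.2.1, ?_⟩
    intro x δ c₁ c₂ c₃ c₄ a b c f hx hδ h1 h2 h3 h4 ha hb hc hf he
    have hP : P x (comb c₁ c₂ c₃ c₄ a b c f) δ :=
      ⟨hx, abs_comb h1 h2 h3 h4 a b c f, hδ, comb_support _ _ _ _ _ _ _ _ _, by
        rw [S_comb ha hb hc hf]; exact he⟩
    have hpr := hprop x₀ d₀ δ₀ x _ δ hP₀ hP
    constructor
    · intro t ht hne
      rw [mem_filter, mem_range]
      refine ⟨ht, fun h0 => ?_⟩
      have := hpr t ht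
      rw [h0, mul_zero] at this
      exact hne ((mul_eq_zero.1 this).resolve_left hx₀)
    · rintro ⟨s, hs, hsne⟩ t ht
      rw [mem_filter, mem_range] at ht
      intro h0
      have := hpr t ht.1
      rw [h0, mul_zero] at this
      have hx0 : x = 0 := (mul_eq_zero.1 this.symm).resolve_right ht.2
      rw [hx0] at hP
      exact hsne (hzero _ δ hP s hs)
  · refine ⟨∅, by simp, ?_⟩
    intro x δ c₁ c₂ c₃ c₄ a b c f hx hδ h1 h2 h3 h4 ha hb hc hf he
    have hP : P x (comb c₁ c₂ c₃ c₄ a b c f) δ :=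
      ⟨hx, abs_comb h1 h2 h3 h4 a b c f, hδ, comb_support _ _ _ _ _ _ _ _ _, by
        rw [S_comb ha hb hc hf]; exact he⟩
    constructor
    · intro t ht hne
      exact absurd ⟨x, _, δ, hP, t, ht, hne⟩ hex
    · intro _ t ht
      simp at ht

/-- The value of a position. -/
def lam (l₁ l₂ : ℤ) (a : ℕ) : ℤ := l₁ * (bA m : ℤ) ^ (a + 1) + l₂ * (bM m : ℤ) ^ (a + 1)

/-- For each generator, a place outside of a small set. -/
theorem exists_place {Z : Finset ℕ} (hZ : Z.card ≤ 4) {j : ℕ} (hj : j < m) :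
    ∃ k, k < 5 ∧ j + m * k ∉ Z := by
  by_contra hcon
  push Not at hcon
  have h1 : (range 5).image (fun k => j + m * k) ⊆ Z := by
    intro t ht
    rw [mem_image] at ht
    obtain ⟨k, hk, rfl⟩ := ht
    exact hcon k (mem_range.1 hk)
  have h2 := card_le_card h1
  rw [card_image_of_injOn] at h2
  · simp at h2; omega
  · intro k _ k' _ h
    have : m * k = m * k' := by simpa using h
    exact Nat.eq_of_mul_eq_mul_left (by omega) this

/-- **The facts on the positions** which are used for `l₂ ≠ 0`. -/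
theorem exists_J (l₁ l₂ : ℤ) (h₂ : l₂ ≠ 0) : ∃ (Z : Finset ℕ) (J : ℕ → ℕ),
    (∀ j, j < m → J j < 5 * m ∧ ∃ k, k < 5 ∧ J j = j + m * k) ∧
    -- two different positions, one of them chosen
    (∀ (j a : ℕ) (τ : ℤ), j < m → a < 5 * m → a ≠ J j → |τ| ≤ 2 * m + 2 →
      lam m l₁ l₂ a - lam m l₁ l₂ (J j) + τ * l₂ ≠ 0) ∧
    -- the path from the origin
    (∀ (j : ℕ) (u : ℕ) (τ : ℤ), j < m → u ≤ bA m ^ (5 * m) → |τ| ≤ 2 * m + 2 →
      lam m l₁ l₂ (J j) - u * l₁ + τ * l₂ ≠ 0) ∧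
    -- four positions
    (∀ (j j' a a' : ℕ) (τ : ℤ), j < m → j' < m → a < 5 * m → a' < 5 * m → a ≠ a' →
      |τ| ≤ 2 * m + 2 →
      lam m l₁ l₂ a - lam m l₁ l₂ (J j) - lam m l₁ l₂ a' + lam m l₁ l₂ (J j') + τ * l₂ = 0 →
      (J j = J j' ∧ a ≠ J j ∧ a' ≠ J j ∧ a ∈ Z ∧ a' ∈ Z) ∨ (a = J j ∧ a' = J j' ∧ τ = 0)) ∧
    -- the path from another point
    (∀ (j j' a : ℕ) (u : ℕ) (τ : ℤ), j < m → j' < m → a < 5 * m → a ≠ J j → a ∈ Z →
      u ≤ bA m ^ (5 * m) → |τ| ≤ 2 * m + 2 →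
      lam m l₁ l₂ a - lam m l₁ l₂ (J j) + lam m l₁ l₂ (J j') - u * l₁ + τ * l₂ = 0 →
      ∀ b ∈ Z, b = a) := by
  obtain ⟨Z, hZ, hfam⟩ := exists_Z m l₁ l₂ h₂
  have hk : ∀ j, ∃ k, j < m → (k < 5 ∧ j + m * k ∉ Z) := by
    intro j
    by_cases hj : j < m
    · obtain ⟨k, hk⟩ := exists_place m hZ hj
      exact ⟨k, fun _ => hk⟩
    · exact ⟨0, fun h => absurd h hj⟩
  choose κ hκ using hk
  have hJlt : ∀ j, j < m → j + m * κ j < 5 * m := by
    intro j hj
    have h1 := (hκ j hj).1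
    have : m * κ j ≤ m * 4 := Nat.mul_le_mul_left _ (by omega)
    omega
  have hJZ : ∀ j, j < m → j + m * κ j ∉ Z := fun j hj => (hκ j hj).2
  -- bounds for the first coordinates
  have hA1 : (1 : ℤ) ≤ bA m := by unfold bA; push_cast; linarith
  have hpow : ∀ a, a < 5 * m → (0 : ℤ) ≤ (bA m : ℤ) ^ (a + 1) ∧
      (bA m : ℤ) ^ (a + 1) ≤ (bA m : ℤ) ^ (5 * m) := by
    intro a ha
    exact ⟨by positivity, pow_le_pow_right₀ hA1 (by omega)⟩
  have hXe : ((bX m : ℕ) : ℤ) = 4 * (bA m : ℤ) ^ (5 * m) := by unfold bX; push_cast; ring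
  have hbase : (0 : ℤ) ≤ (bA m : ℤ) ^ (5 * m) := by positivity
  refine ⟨Z, fun j => j + m * κ j, fun j hj => ⟨hJlt j hj, κ j, (hκ j hj).1, rfl⟩, ?_, ?_, ?_, ?_⟩
  · intro j a τ hj ha hne hτ h
    have hJ := hJlt j hj
    have p1 := hpow a ha
    have p2 := hpow _ hJ
    have := (hfam ((bA m : ℤ) ^ (a + 1) - (bA m : ℤ) ^ (j + m * κ j + 1)) τ 1 (-1) 0 0 a
      (j + m * κ j) a a (by rw [hXe, abs_le]; constructor <;> linarith) hτ (by norm_num)
      (by norm_num) (by norm_num) (by norm_num) ha hJ ha ha (by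
        unfold lam at h; linear_combination h)).1 (j + m * κ j) hJ (by
        simp [comb, Ne.symm hne])
    exact hJZ j hj this
  · intro j u τ hj hu hτ h
    have hJ := hJlt j hj
    have p2 := hpow _ hJ
    have hu' : ((u : ℕ) : ℤ) ≤ (bA m : ℤ) ^ (5 * m) := by exact_mod_cast hu
    have hu0 : (0 : ℤ) ≤ (u : ℤ) := by positivity
    have := (hfam ((bA m : ℤ) ^ (j + m * κ j + 1) - u) τ 1 0 0 0 (j + m * κ j)
      (j + m * κ j) (j + m * κ j) (j + m * κ j) (by rw [hXe, abs_le]; constructor <;> linarith) hτ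
      (by norm_num) (by norm_num) (by norm_num) (by norm_num) hJ hJ hJ hJ (by
        unfold lam at h; linear_combination h)).1 (j + m * κ j) hJ (by
        simp [comb])
    exact hJZ j hj this
  · intro j j' a a' τ hj hj' ha ha' hne hτ h
    have hJ := hJlt j hj
    have hJ' := hJlt j' hj'
    have p1 := hpow a ha
    have p2 := hpow _ hJ
    have p3 := hpow a' ha'
    have p4 := hpow _ hJ'
    have hf := hfam ((bA m : ℤ) ^ (a + 1) - (bA m : ℤ) ^ (j + m * κ j + 1) -
        (bA m : ℤ) ^ (a' + 1) + (bA m : ℤ) ^ (j' + m * κ j' + 1)) τ 1 (-1) (-1) 1 a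
      (j + m * κ j) a' (j' + m * κ j') (by rw [hXe, abs_le]; constructor <;> linarith) hτ
      (by norm_num) (by norm_num) (by norm_num) (by norm_num) ha hJ ha' hJ' (by
        unfold lam at h; linear_combination h)
    have z1 : comb 1 (-1) (-1) 1 a (j + m * κ j) a' (j' + m * κ j') (j + m * κ j) = 0 := by
      by_contra hc
      exact hJZ j hj (hf.1 _ hJ hc)
    have z2 : comb 1 (-1) (-1) 1 a (j + m * κ j) a' (j' + m * κ j') (j' + m * κ j') = 0 := by
      by_contra hc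
      exact hJZ j' hj' (hf.1 _ hJ' hc)
    by_cases hJJ : j + m * κ j = j' + m * κ j'
    · left
      unfold comb at z1
      rw [← hJJ] at z1
      have hna : j + m * κ j ≠ a := by
        intro he
        have hna' : j + m * κ j ≠ a' := fun h' => hne (he.symm.trans h')
        rw [if_pos he, if_pos rfl, if_neg hna'] at z1
        norm_num at z1
      have hna' : j + m * κ j ≠ a' := by
        intro he
        rw [if_neg hna, if_pos rfl, if_pos he] at z1
        norm_num at z1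
      refine ⟨hJJ, Ne.symm hna, Ne.symm hna', ?_, ?_⟩
      · apply hf.1 a ha
        unfold comb
        rw [← hJJ, if_pos rfl, if_neg (Ne.symm hna), if_neg hne]
        norm_num
      · apply hf.1 a' ha'
        unfold comb
        rw [← hJJ, if_neg (Ne.symm hne), if_neg (Ne.symm hna'), if_pos rfl]
        norm_num
    · right
      unfold comb at z1 z2
      have h1 : j + m * κ j = a := by
        by_contra hc
        rw [if_neg hc, if_pos rfl, if_neg hJJ] at z1
        split_ifs at z1 <;> norm_num at z1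
      have h2 : j' + m * κ j' = a' := by
        by_contra hc
        rw [if_neg hc, if_neg (Ne.symm hJJ), if_pos rfl] at z2
        split_ifs at z2 <;> norm_num at z2
      refine ⟨h1.symm, h2.symm, ?_⟩
      have hq : lam m l₁ l₂ a - lam m l₁ l₂ (j + m * κ j) - lam m l₁ l₂ a' +
        lam m l₁ l₂ (j' + m * κ j') = 0 := by rw [h1, h2]; ring
      have : τ * l₂ = 0 := by
        have h' := h
        simp only at h'
        linarith
      exact (mul_eq_zero.1 this).resolve_right h₂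
  · intro j j' a u τ hj hj' ha hne haZ hu hτ h b hb
    have hJ := hJlt j hj
    have hJ' := hJlt j' hj'
    have p1 := hpow a ha
    have p2 := hpow _ hJ
    have p4 := hpow _ hJ'
    have hu' : ((u : ℕ) : ℤ) ≤ (bA m : ℤ) ^ (5 * m) := by exact_mod_cast hu
    have hu0 : (0 : ℤ) ≤ (u : ℤ) := by positivity
    have hf := hfam ((bA m : ℤ) ^ (a + 1) - (bA m : ℤ) ^ (j + m * κ j + 1) +
        (bA m : ℤ) ^ (j' + m * κ j' + 1) - u) τ 1 (-1) 0 1 a
      (j + m * κ j) a (j' + m * κ j') (by rw [hXe, abs_le]; constructor <;> linarith) hτ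
      (by norm_num) (by norm_num) (by norm_num) (by norm_num) ha hJ ha hJ' (by
        unfold lam at h; linear_combination h)
    have z1 : comb 1 (-1) 0 1 a (j + m * κ j) a (j' + m * κ j') (j + m * κ j) = 0 := by
      by_contra hc
      exact hJZ j hj (hf.1 _ hJ hc)
    have hJJ : j + m * κ j = j' + m * κ j' := by
      by_contra hc
      unfold comb at z1
      rw [if_neg (Ne.symm hne), if_pos rfl, if_neg hc] at z1
      norm_num at z1
    have hca : comb 1 (-1) 0 1 a (j + m * κ j) a (j' + m * κ j') a ≠ 0 := by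
      unfold comb
      rw [← hJJ, if_pos rfl, if_neg hne]
      norm_num
    have hcb := hf.2 ⟨a, ha, hca⟩ b hb
    by_contra hba
    apply hcb
    unfold comb
    rw [← hJJ, if_neg hba]
    ring

end

end Pool.Agent.Helper3K.TG
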