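import Pool.Agent.Helper3K.TG.Step1
import Pool.Agent.Helper3K.TG.Num

/-!
# Homomorphisms from the free group of rank two to wreath products with prescribed values
-/

set_option autoImplicit false

namespace Pool.Agent.Helper3K.TG

open Pool.Agent.N582.BS Pool.Agent.Helper3K.OV
open scoped commutatorElement

/-! ### The words -/

section

variable (m : ℕ) {M : Type} [Group M]

/-- The path to the position `a`. -/
def zz (X Y : M) (a : ℕ) : M := X ^ (bA m ^ (a + 1)) * Y ^ (bM m ^ (a + 1))

/-- The commutator at the position `a`. -/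
def plq (X Y : M) (a : ℕ) : M := zz m X Y a * ⁅X, Y⁆ * (zz m X Y a)⁻¹

/-- The product of the commutators at the five positions of the generator `j`. -/
def W (X Y : M) (j : ℕ) : M := ((List.range 5).map (fun k => plq m X Y (j + m * k))).prod

theorem map_W {M' : Type} [Group M'] (φ : M →* M') (X Y : M) (j : ℕ) :
    φ (W m X Y j) = W m (φ X) (φ Y) j := by
  unfold W
  rw [map_list_prod, List.map_map]
  congr 1
  apply List.map_congr_left
  intro k _
  simp [plq, zz, map_commutatorElement]

end

/-! ### Evaluation -/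

section

variable {D : Type} [Group D] (m : ℕ)

theorem plq_right (X Y : D ≀ᵣ (Multiplicative ℤ)) (a : ℕ) : (plq m X Y a).right = 1 :=
  (conj_left _ _ (comm_left X Y 1).2 1).2

theorem W_eval (X Y : D ≀ᵣ (Multiplicative ℤ)) (j : ℕ) (z : Multiplicative ℤ) :
    (W m X Y j).left z = ((List.range 5).map (fun k => (plq m X Y (j + m * k)).left z)).prod ∧
      (W m X Y j).right = 1 := by
  have h := left_prod ((List.range 5).map (fun k => plq m X Y (j + m * k))) (by
    intro x hx
    rw [List.mem_map] at hx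
    obtain ⟨k, _, rfl⟩ := hx
    exact plq_right m X Y _) z
  rw [List.map_map] at h
  exact h

theorem prod_range_single' {M : Type} [Monoid M] (f : ℕ → M) {a N : ℕ} (ha : a < N)
    (h : ∀ b, b < N → b ≠ a → f b = 1) : ((List.range N).map f).prod = f a := by
  have h1 := prod_range_single (fun b => if b < N then f b else 1) a (by
    intro b hb
    by_cases hN : b < N
    · simp only [hN, if_true]; exact h b hN hb
    · simp only [hN, if_false]) N ha
  rw [if_pos ha] at h1
  rw [← h1]
  congr 1
  apply List.map_congr_left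
  intro b hb
  rw [if_pos (List.mem_range.1 hb)]

/-- The two properties of the labels. -/
structure Spec (g : ℕ → D) (X Y : D ≀ᵣ (Multiplicative ℤ)) : Prop where
  zero : ∀ j, j < m → ∃ k, k < 5 ∧ (plq m X Y (j + m * k)).left 1 = g j ∧
    ∀ k', k' < 5 → k' ≠ k → (plq m X Y (j + m * k')).left 1 = 1
  comm : ∀ z, z ≠ 1 → ∀ a a', a < 5 * m → a' < 5 * m → a % m ≠ a' % m →
    (plq m X Y a).left z ≠ 1 → (plq m X Y a').left z ≠ 1 →
      Commute ((plq m X Y a).left z) ((plq m X Y a').left z)

theorem commute_list_prod {M : Type} [Monoid M] (l l' : List M)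
    (h : ∀ x ∈ l, ∀ y ∈ l', Commute x y) : Commute l.prod l'.prod := by
  have h1 : ∀ x ∈ l, Commute x l'.prod := by
    intro x hx
    have := h x hx
    clear h
    induction l' with
    | nil => simp
    | cons y l' ih =>
      rw [List.prod_cons]
      exact (this y List.mem_cons_self).mul_right
        (ih (fun z hz => this z (List.mem_cons_of_mem _ hz)))
  clear h
  induction l with
  | nil => simp
  | cons x l ih =>
    rw [List.prod_cons]
    exact (h1 x List.mem_cons_self).mul_left (ih (fun z hz => h1 z (List.mem_cons_of_mem _ hz)))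

theorem Spec.value {m : ℕ} {g : ℕ → D} {X Y : D ≀ᵣ (Multiplicative ℤ)} (h : Spec m g X Y) :
    (∀ j, j < m → (W m X Y j).left 1 = g j) ∧
    ∀ z, z ≠ 1 → ∀ i i', i < m → i' < m → Commute ((W m X Y i).left z) ((W m X Y i').left z) := by
  constructor
  · intro j hj
    obtain ⟨k, hk, h1, h2⟩ := h.zero j hj
    rw [(W_eval m X Y j 1).1, prod_range_single' _ hk h2, h1]
  · intro z hz i i' hi hi'
    by_cases hii : i = i'
    · subst hii; exact Commute.refl _
    rw [(W_eval m X Y i z).1, (W_eval m X Y i' z).1]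
    apply commute_list_prod
    intro x hx y hy
    rw [List.mem_map] at hx hy
    obtain ⟨k, hk, rfl⟩ := hx
    obtain ⟨k', hk', rfl⟩ := hy
    rw [List.mem_range] at hk hk'
    by_cases h1 : (plq m X Y (i + m * k)).left z = 1
    · rw [h1]; exact Commute.one_left _
    by_cases h2 : (plq m X Y (i' + m * k')).left z = 1
    · rw [h2]; exact Commute.one_right _
    have e1 : m * k ≤ m * 4 := Nat.mul_le_mul_left _ (by omega)
    have e2 : m * k' ≤ m * 4 := Nat.mul_le_mul_left _ (by omega)
    refine h.comm z hz _ _ (by omega) (by omega) ?_ h1 h2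
    rw [Nat.add_mul_mod_self_left, Nat.add_mul_mod_self_left, Nat.mod_eq_of_lt hi,
      Nat.mod_eq_of_lt hi']
    exact hii

/-! ### The case `l₂ ≠ 0` -/

/-- The value of a factor for labels on the edges `X`. -/
theorem fac_nonvert (f : ℤ → D) (l₁ l₂ : ℤ) (a : ℕ) (z : ℤ) :
    (plq m (⟨fun z => f z.toAdd, Multiplicative.ofAdd l₁⟩ : D ≀ᵣ (Multiplicative ℤ))
      (RegularWreathProduct.inl (Multiplicative.ofAdd l₂)) a).left (Multiplicative.ofAdd z) =
      ((⟨fun z => f z.toAdd, Multiplicative.ofAdd l₁⟩ : D ≀ᵣ (Multiplicative ℤ)) ^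
          (bA m ^ (a + 1))).left (Multiplicative.ofAdd z) *
        (f (z - lam m l₁ l₂ a) * (f (z - lam m l₁ l₂ a - l₂))⁻¹) *
      (((⟨fun z => f z.toAdd, Multiplicative.ofAdd l₁⟩ : D ≀ᵣ (Multiplicative ℤ)) ^
          (bA m ^ (a + 1))).left (Multiplicative.ofAdd z))⁻¹ := by
  set X : D ≀ᵣ (Multiplicative ℤ) := ⟨fun z => f z.toAdd, Multiplicative.ofAdd l₁⟩ with hX
  have hXr : X.right = Multiplicative.ofAdd l₁ := rfl
  have hXl : ∀ z, X.left z = f z.toAdd := fun _ => rfl
  have hz1 : ∀ z, (zz m X (RegularWreathProduct.inl (Multiplicative.ofAdd l₂)) a).left z =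
      (X ^ (bA m ^ (a + 1))).left z := by
    intro z
    rw [zz, RegularWreathProduct.mul_left, Pi.mul_apply]
    simp only [inl_pow_left, Pi.one_apply, mul_one]
  have hz2 : (zz m X (RegularWreathProduct.inl (Multiplicative.ofAdd l₂)) a).right =
      Multiplicative.ofAdd (lam m l₁ l₂ a) := by
    rw [zz, RegularWreathProduct.mul_right, pow_right, pow_right, hXr,
      RegularWreathProduct.right_inl, ← ofAdd_nsmul, ← ofAdd_nsmul, ← ofAdd_add]
    congr 1
    rw [lam, nsmul_eq_mul, nsmul_eq_mul]
    push_cast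
    ring
  rw [plq, (conj_left _ _ (comm_left _ _ 1).2 _).1, hz1, (comm_left _ _ _).1, hz2, hXl,
    RegularWreathProduct.left_inl, RegularWreathProduct.right_inl, hXl]
  simp only [Pi.one_apply, mul_one, inv_one, toAdd_mul, toAdd_inv, toAdd_ofAdd]
  have e1 : -lam m l₁ l₂ a + z = z - lam m l₁ l₂ a := by ring
  have e2 : -l₂ + (z - lam m l₁ l₂ a) = z - lam m l₁ l₂ a - l₂ := by ring
  rw [e1, e2]

theorem path_one (f : ℤ → D) (l₁ : ℤ) (p : ℕ) (z : ℤ) (h : ∀ u : ℕ, u < p → f (z - u * l₁) = 1) :
    ((⟨fun z => f z.toAdd, Multiplicative.ofAdd l₁⟩ : D ≀ᵣ (Multiplicative ℤ)) ^ p).left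
      (Multiplicative.ofAdd z) = 1 := by
  apply pow_left_one
  intro u hu
  show f _ = 1
  rw [← h u hu]
  congr 1
  rw [toAdd_mul, toAdd_inv, toAdd_pow, toAdd_ofAdd, toAdd_ofAdd, nsmul_eq_mul]
  ring

theorem nonvert (g : ℕ → D) (l₁ l₂ : ℤ) (h₂ : l₂ ≠ 0) :
    ∃ X Y : D ≀ᵣ (Multiplicative ℤ), X.right = Multiplicative.ofAdd l₁ ∧
      Y.right = Multiplicative.ofAdd l₂ ∧ Spec m g X Y := by
  classical
  obtain ⟨Z, J, hJ, fac2, fac3, fac4, fac5⟩ := exists_J m l₁ l₂ h₂
  set L := lam m l₁ l₂ with hL
  have hJmod : ∀ j, j < m → J j % m = j := by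
    intro j hj
    obtain ⟨_, k, _, hk⟩ := hJ j hj
    rw [hk, Nat.add_mul_mod_self_left, Nat.mod_eq_of_lt hj]
  have hJinj : ∀ j j', j < m → j' < m → J j = J j' → j = j' := by
    intro j j' hj hj' h
    rw [← hJmod j hj, ← hJmod j' hj', h]
  -- the segments
  let seg : ℕ → ℕ → ℤ → Prop := fun j t ζ => j < m ∧ t ≤ j ∧ ζ = -L (J j) + t * l₂
  have seg_unique : ∀ j t j' t' ζ (s : ℤ), seg j t ζ → seg j' t' (ζ - s * l₂) → 0 ≤ s → s ≤ 1 →
      j = j' := by
    rintro j t j' t' ζ s ⟨hj, ht, he⟩ ⟨hj', ht', he'⟩ hs0 hs1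
    by_contra hne
    have hJne : J j' ≠ J j := fun h => hne (hJinj j j' hj hj' h.symm)
    refine fac2 j (J j') (t - s - t') hj (hJ j' hj').1 hJne ?_ ?_
    · rw [abs_le]; constructor <;> omega
    · rw [he] at he'
      linear_combination he'
  let f : ℤ → D := fun ζ => if h : ∃ j t, seg j t ζ then g h.choose else 1
  have hf1 : ∀ j t ζ, seg j t ζ → f ζ = g j := by
    intro j t ζ h
    have hex : ∃ j t, seg j t ζ := ⟨j, t, h⟩
    have hfe : f ζ = g hex.choose := dif_pos hex
    obtain ⟨t', ht'⟩ := hex.choose_spec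
    rw [hfe]
    congr 1
    exact (seg_unique j t _ t' ζ 0 h (by rw [zero_mul, sub_zero]; exact ht') (by omega)
      (by omega)).symm
  have hf0 : ∀ ζ, f ζ ≠ 1 → ∃ j t, seg j t ζ := by
    intro ζ h
    by_contra hcon
    exact h (dif_neg hcon)
  -- the classification of the nontrivial commutators
  have hclass : ∀ ζ, f ζ * (f (ζ - l₂))⁻¹ ≠ 1 → ∃ j, j < m ∧ ∃ ε : ℤ, (ε = 0 ∨ ε = j + 1) ∧
      ζ = -L (J j) + ε * l₂ ∧ (f ζ * (f (ζ - l₂))⁻¹ = g j ∨ f ζ * (f (ζ - l₂))⁻¹ = (g j)⁻¹) := by
    intro ζ hne
    by_cases h1 : ∃ j t, seg j t ζ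
    · obtain ⟨j, t, hs⟩ := h1
      have hfz := hf1 j t ζ hs
      by_cases h2 : ∃ j' t', seg j' t' (ζ - l₂)
      · obtain ⟨j', t', hs'⟩ := h2
        have hjj : j = j' := seg_unique j t j' t' ζ 1 hs (by rw [one_mul]; exact hs') (by omega)
          (by omega)
        have hfz' := hf1 j' t' _ hs'
        rw [hfz, hfz', hjj, mul_inv_cancel] at hne
        exact absurd rfl hne
      · have hfz' : f (ζ - l₂) = 1 := dif_neg h2
        refine ⟨j, hs.1, 0, Or.inl rfl, ?_, Or.inl (by rw [hfz, hfz', inv_one, mul_one])⟩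
        have ht : t = 0 := by
          by_contra ht
          apply h2
          refine ⟨j, t - 1, hs.1, by have := hs.2.1; omega, ?_⟩
          rw [hs.2.2]
          have : ((t - 1 : ℕ) : ℤ) = t - 1 := by omega
          rw [this]; ring
        rw [hs.2.2, ht]; simp
    · have hfz : f ζ = 1 := dif_neg h1
      rw [hfz, one_mul] at hne
      have hne' : f (ζ - l₂) ≠ 1 := fun h => hne (by rw [h, inv_one])
      obtain ⟨j, t, hs⟩ := hf0 _ hne'
      have hfz' := hf1 j t _ hs
      refine ⟨j, hs.1, j + 1, Or.inr rfl, ?_, Or.inr (by rw [hfz, hfz', one_mul])⟩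
      have ht : t = j := by
        by_contra ht
        apply h1
        refine ⟨j, t + 1, hs.1, by have := hs.2.1; omega, ?_⟩
        have := hs.2.2
        push_cast
        linear_combination this
      have := hs.2.2
      rw [ht] at this
      linear_combination this
  have hplt : ∀ a, a < 5 * m → bA m ^ (a + 1) ≤ bA m ^ (5 * m) := by
    intro a ha
    exact Nat.pow_le_pow_right (by unfold bA; omega) (by omega)
  refine ⟨⟨fun z => f z.toAdd, Multiplicative.ofAdd l₁⟩,
    RegularWreathProduct.inl (Multiplicative.ofAdd l₂), rfl, rfl, ?_, ?_⟩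
  · -- the value at the origin
    intro j hj
    obtain ⟨hJlt, k, hk, hJk⟩ := hJ j hj
    refine ⟨k, hk, ?_, ?_⟩
    · rw [← hJk]
      have h := fac_nonvert m f l₁ l₂ (J j) 0
      rw [ofAdd_zero] at h
      rw [h, ← ofAdd_zero, path_one]
      · rw [one_mul, inv_one, mul_one]
        have e1 : f (0 - L (J j)) = g j := hf1 j 0 _ ⟨hj, by omega, by simp⟩
        have e2 : f (0 - L (J j) - l₂) = 1 := by
          by_contra hne
          obtain ⟨j', t', hs⟩ := hf0 _ hne
          have hjj : j = j' := seg_unique j 0 j' t' (0 - L (J j)) 1 ⟨hj, by omega, by simp⟩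
            (by rw [one_mul]; exact hs) (by omega) (by omega)
          have h3 := hs.2.2
          rw [← hjj] at h3
          have h4 : ((t' : ℤ) + 1) * l₂ = 0 := by linear_combination -h3
          rcases mul_eq_zero.1 h4 with h5 | h5
          · omega
          · exact h₂ h5
        rw [e1, e2, inv_one, mul_one]
      · intro u hu
        by_contra hne
        obtain ⟨j', t', hj', ht', he⟩ := hf0 _ hne
        refine fac3 j' u (-t') hj' (le_trans hu.le (hplt _ hJlt)) ?_ ?_
        · rw [abs_le]; constructor <;> omega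
        · linear_combination he
    · intro k' hk' hne
      have h := fac_nonvert m f l₁ l₂ (j + m * k') 0
      rw [ofAdd_zero] at h
      rw [h]
      have hone : f (0 - lam m l₁ l₂ (j + m * k')) * (f (0 - lam m l₁ l₂ (j + m * k') - l₂))⁻¹ = 1 := by
        by_contra hc
        obtain ⟨j', hj', ε, hε, he, _⟩ := hclass _ hc
        have hlt : j + m * k' < 5 * m := by
          have : m * k' ≤ m * 4 := Nat.mul_le_mul_left _ (by omega)
          omega
        by_cases hJe : j + m * k' = J j'
        · have hjj : j = j' := by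
            have h1 := hJmod j' hj'
            rw [← hJe, Nat.add_mul_mod_self_left, Nat.mod_eq_of_lt hj] at h1
            exact h1
          subst hjj
          rw [hJk] at hJe
          have : m * k' = m * k := by omega
          exact hne (Nat.eq_of_mul_eq_mul_left (by omega) this)
        · refine fac2 j' (j + m * k') ε hj' hlt hJe ?_ ?_
          · rw [abs_le]; rcases hε with rfl | rfl <;> constructor <;> omega
          · linear_combination -he
      rw [hone, mul_one, mul_inv_cancel]
  · -- the other coordinates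
    intro zz hz a a' ha ha' haa h1 h2
    obtain ⟨z, hzz⟩ : ∃ z : ℤ, Multiplicative.ofAdd z = zz := ⟨zz.toAdd, rfl⟩
    subst hzz
    have hz0 : z ≠ 0 := fun h => hz (by rw [h]; rfl)
    rw [fac_nonvert] at h1 h2
    rw [fac_nonvert, fac_nonvert]
    have k1 : f (z - lam m l₁ l₂ a) * (f (z - lam m l₁ l₂ a - l₂))⁻¹ ≠ 1 := by
      intro h; rw [h, mul_one, mul_inv_cancel] at h1; exact h1 rfl
    have k2 : f (z - lam m l₁ l₂ a') * (f (z - lam m l₁ l₂ a' - l₂))⁻¹ ≠ 1 := by
      intro h; rw [h, mul_one, mul_inv_cancel] at h2; exact h2 rfl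
    obtain ⟨j, hj, ε, hε, he, hv⟩ := hclass _ k1
    obtain ⟨j', hj', ε', hε', he', hv'⟩ := hclass _ k2
    have hne : a ≠ a' := fun h => haa (by rw [h])
    rcases fac4 j j' a a' (ε - ε') hj hj' ha ha' hne (by
        rw [abs_le]; rcases hε with rfl | rfl <;> rcases hε' with rfl | rfl <;>
        constructor <;> omega) (by linear_combination -he + he') with
      ⟨hJJ, hna, hna', haZ, haZ'⟩ | ⟨e1, e2, e3⟩
    · have hjj := hJinj j j' hj hj' hJJ
      subst hjj
      rw [path_one, path_one]
      · rw [one_mul, inv_one, mul_one, one_mul, mul_one]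
        rcases hv with hv | hv <;> rcases hv' with hv' | hv' <;> rw [hv, hv']
        · exact (Commute.refl _).inv_right
        · exact (Commute.refl _).inv_left
      · intro u hu
        by_contra hc
        obtain ⟨j'', t, hj'', ht, hs⟩ := hf0 _ hc
        have := fac5 j j'' a' u (ε' - t) hj hj'' ha' hna' haZ' (le_trans hu.le (hplt _ ha')) (by
          rw [abs_le]; rcases hε' with rfl | rfl <;> constructor <;> omega)
          (by linear_combination hs - he') a haZ
        exact hne this
      · intro u hu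
        by_contra hc
        obtain ⟨j'', t, hj'', ht, hs⟩ := hf0 _ hc
        have := fac5 j j'' a u (ε - t) hj hj'' ha hna haZ (le_trans hu.le (hplt _ ha)) (by
          rw [abs_le]; rcases hε with rfl | rfl <;> constructor <;> omega)
          (by linear_combination hs - he) a' haZ'
        exact hne this.symm
    · exfalso
      have hjj : j ≠ j' := by
        intro h
        apply hne
        rw [e1, e2, h]
      have hε0 : ε = 0 := by
        rcases hε with h | h
        · exact h
        · rcases hε' with h' | h' <;> omega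
      apply hz0
      rw [hε0, ← e1] at he
      linear_combination he

end

end Pool.Agent.Helper3K.TG
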