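import Pool.Agent.Helper3K.TG.Vert
import Pool.Agent.Helper3K.OV.Comp

/-!
# Reduction to two generators: the main statements
-/

set_option autoImplicit false

namespace Pool.Agent.Helper3K.TG

open Pool.Agent.N582.BS Pool.Agent.Helper3K.OV
open scoped commutatorElement

/-! ### Words and elements of free groups -/

theorem ev_eq_lift {A H : Type} [Group H] (f : A → H) (w : List (A × Bool)) :
    ev f w = FreeGroup.lift f (FreeGroup.mk w) := by
  rw [FreeGroup.lift_mk, ev]
  congr 1
  apply List.map_congr_left
  intro l _
  cases l.2 <;> simp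

/-- The word `w` as a word with constants, without the variable. -/
def cst {k : ℕ} (w : List (Fin k × Bool)) : List (Option (Fin k) × Bool) :=
  w.map (fun l => (some l.1, l.2))

/-- The word for a letter after the substitution of `c i` for the constant `x_i`. -/
def substLetter {n k : ℕ} (c : Fin n → List (Fin k × Bool)) (l : Option (Fin n) × Bool) :
    List (Option (Fin k) × Bool) :=
  match l.1 with
  | none => [(none, l.2)]
  | some i => if l.2 = true then cst (c i) else winv (cst (c i))

/-- The word which one obtains from the equation `u` if each constant `x_i` is replaced by the word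
`c i` (and `x_i⁻¹` by the inverse word); the variable is kept. -/
def subst {n k : ℕ} (c : Fin n → List (Fin k × Bool)) (u : List (Option (Fin n) × Bool)) :
    List (Option (Fin k) × Bool) :=
  u.flatMap (substLetter c)

theorem ev_subst {n k : ℕ} {H : Type} [Group H] (c : Fin n → List (Fin k × Bool))
    (f : Fin k → H) (h : H) (u : List (Option (Fin n) × Bool)) :
    ev (val f h) (subst c u) = ev (val (fun i => ev f (c i)) h) u := by
  induction u with
  | nil => simp [subst, ev_nil]
  | cons l u ih =>
    have h1 : subst c (l :: u) = substLetter c l ++ subst c u := by simp [subst]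
    rw [h1, ev_append, ih, ev_cons]
    congr 1
    have hc : ∀ i, ev (val f h) (cst (c i)) = ev f (c i) := fun i => ev_map (val f h) some (c i)
    obtain ⟨o, b⟩ := l
    cases o with
    | none => cases b <;> simp [substLetter, ev_cons, ev_nil, val]
    | some i =>
      cases b
      · simp only [substLetter, Bool.false_eq_true, if_false, ev_winv, hc, val]
      · simp only [substLetter, if_true, hc, val]

theorem evalAt_eq {n : ℕ} (r : FreeGroup (Fin n)) (g : OneRel r)
    (u : List (Option (Fin n) × Bool)) :
    evalAt r g u = ev (val (fun i => PresentedGroup.of i) g) u := by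
  rw [evalAt]
  congr 1
  funext o
  cases o <;> rfl

theorem primrec_subst {n k : ℕ} (c : Fin n → List (Fin k × Bool)) : Primrec (subst c) := by
  unfold subst
  exact Primrec.list_flatMap Primrec.id
    ((Primrec.dom_finite (substLetter c)).comp Primrec.snd).to₂

/-! ### The group -/

/-- The words in two generators which are substituted for the generators in one step. -/
def wd {n : ℕ} (i : Fin n) : FreeGroup (Fin 2) :=
  ⁅(W (n + n) (FreeGroup.of 0) (FreeGroup.of 1) (Fin.castAdd n i : ℕ) : FreeGroup (Fin 2)),
    (W (n + n) (FreeGroup.of 0) (FreeGroup.of 1) (Fin.natAdd n i : ℕ) : FreeGroup (Fin 2))⁆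

theorem r2_r1 {n : ℕ} (r : FreeGroup (Fin n)) : r2 (r1 r) = FreeGroup.lift wd r := by
  rw [r2, lift_r1]
  rfl

theorem W_mem {m : ℕ} {M : Type} [Group M] (X Y : M) (j : ℕ) : W m X Y j ∈ commutator M := by
  unfold W
  apply Subgroup.list_prod_mem
  intro x hx
  rw [List.mem_map] at hx
  obtain ⟨k, _, rfl⟩ := hx
  exact (inferInstance : (commutator M).Normal).conj_mem _
    (Subgroup.commutator_mem_commutator (Subgroup.mem_top _) (Subgroup.mem_top _)) _

theorem wd_mem {n : ℕ} (i : Fin n) : (wd i : FreeGroup (Fin 2)) ∈
    derivedSeries (FreeGroup (Fin 2)) 2 := by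
  rw [derivedSeries_succ, derivedSeries_one]
  exact Subgroup.commutator_mem_commutator (W_mem _ _ _) (W_mem _ _ _)

/-- The constants in the two-generator group. -/
theorem lift_wd {n : ℕ} {M : Type} [Group M] (f : Fin 2 → M) (i : Fin n) :
    FreeGroup.lift f (wd i) = ⁅W (n + n) (f 0) (f 1) (Fin.castAdd n i : ℕ),
      W (n + n) (f 0) (f 1) (Fin.natAdd n i : ℕ)⁆ := by
  rw [wd, map_commutatorElement, map_W, map_W, FreeGroup.lift_apply_of, FreeGroup.lift_apply_of]

/-- The pair of the group with relator `r` and of the group with relator `r (V_1, …, V_n)`. -/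
def Shadow {n k : ℕ} (r : FreeGroup (Fin n)) (V : Fin n → FreeGroup (Fin k)) : Prop :=
  AC (fun i => (PresentedGroup.of i : OneRel r))
    (fun i : Fin n => FreeGroup.lift
      (fun l => (PresentedGroup.of l : OneRel (FreeGroup.lift V r))) (V i))

theorem shadow_wd {n : ℕ} (r : FreeGroup (Fin n)) : Shadow r (wd (n := n)) := by
  have h := AC.comp (c := fun i => (PresentedGroup.of i : OneRel r))
    (X := fun j => (PresentedGroup.of j : OneRel (r1 r)))
    (X' := fun j : Fin (n + n) => W (n + n) (PresentedGroup.of 0 : OneRel (r2 (r1 r)))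
      (PresentedGroup.of 1) (j : ℕ))
    (fun i : Fin n => ⁅FreeGroup.of (Fin.castAdd n i), FreeGroup.of (Fin.natAdd n i)⁆)
    (by
      have h1 := step1 r
      simp only [map_commutatorElement, FreeGroup.lift_apply_of]
      exact h1)
    (step2 (r1 r) (r1_mem r))
  have e : (fun i : Fin n => FreeGroup.lift
      (fun j : Fin (n + n) => W (n + n) (PresentedGroup.of 0 : OneRel (r2 (r1 r)))
        (PresentedGroup.of 1) (j : ℕ))
      ⁅FreeGroup.of (Fin.castAdd n i), FreeGroup.of (Fin.natAdd n i)⁆) =
      (fun i : Fin n => FreeGroup.lift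
        (fun k => (PresentedGroup.of k : OneRel (r2 (r1 r)))) (wd i)) := by
    funext i
    rw [lift_wd, map_commutatorElement, FreeGroup.lift_apply_of, FreeGroup.lift_apply_of]
  rw [e] at h
  unfold Shadow
  rw [← r2_r1]
  exact h

theorem Shadow.comp {n k l : ℕ} {r : FreeGroup (Fin n)} {V : Fin n → FreeGroup (Fin k)}
    {V' : Fin k → FreeGroup (Fin l)} (h : Shadow r V) (h' : Shadow (FreeGroup.lift V r) V') :
    Shadow r (fun i => FreeGroup.lift V' (V i)) := by
  have hc := AC.comp V h h'
  have e1 : FreeGroup.lift (fun i => FreeGroup.lift V' (V i)) r =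
      FreeGroup.lift V' (FreeGroup.lift V r) := by
    have : FreeGroup.lift (fun i => FreeGroup.lift V' (V i)) =
        (FreeGroup.lift V').comp (FreeGroup.lift V) := by
      apply FreeGroup.ext_hom
      intro i
      simp
    rw [this]; rfl
  unfold Shadow
  rw [e1]
  have e2 : (fun i : Fin n => FreeGroup.lift (fun j : Fin k => FreeGroup.lift
      (fun l => (PresentedGroup.of l : OneRel (FreeGroup.lift V' (FreeGroup.lift V r)))) (V' j))
        (V i)) = (fun i : Fin n => FreeGroup.lift
      (fun l => (PresentedGroup.of l : OneRel (FreeGroup.lift V' (FreeGroup.lift V r))))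
        (FreeGroup.lift V' (V i))) := by
    funext i
    have : (FreeGroup.lift (fun l =>
        (PresentedGroup.of l : OneRel (FreeGroup.lift V' (FreeGroup.lift V r))))).comp
        (FreeGroup.lift V') = FreeGroup.lift (fun j : Fin k => FreeGroup.lift
      (fun l => (PresentedGroup.of l : OneRel (FreeGroup.lift V' (FreeGroup.lift V r)))) (V' j)) := by
      apply FreeGroup.ext_hom
      intro j
      simp
    rw [← this]; rfl
  rw [e2] at hc
  exact hc

/-- A homomorphism with values in the second derived subgroup maps the `d`-th derived subgroup to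
the `(d + 2)`-th one. -/
theorem lift_mem_derived {n l : ℕ} (V : Fin n → FreeGroup (Fin l))
    (hV : ∀ i, V i ∈ derivedSeries (FreeGroup (Fin l)) 2) (d : ℕ) :
    (derivedSeries (FreeGroup (Fin n)) d).map (FreeGroup.lift V) ≤
      derivedSeries (FreeGroup (Fin l)) (d + 2) := by
  induction d with
  | zero =>
    rw [Subgroup.map_le_iff_le_comap]
    intro w hw
    clear hw
    rw [Subgroup.mem_comap]
    induction w using FreeGroup.induction_on with
    | C1 => rw [map_one]; exact one_mem _
    | of x => rw [FreeGroup.lift_apply_of]; exact hV x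
    | inv_of x ih => rw [map_inv]; exact inv_mem ih
    | mul x y hx hy => rw [map_mul]; exact mul_mem hx hy
  | succ d ih =>
    rw [derivedSeries_succ, Subgroup.map_commutator]
    show _ ≤ derivedSeries (FreeGroup (Fin l)) (d + 2 + 1)
    rw [derivedSeries_succ]
    exact Subgroup.commutator_mono ih ih

/-- Each one-relator group has a shadow pair with words in an arbitrary derived subgroup of the free
group of rank two. -/
theorem exists_shadow (d : ℕ) {n : ℕ} (r : FreeGroup (Fin n)) :
    ∃ V : Fin n → FreeGroup (Fin 2), (∀ i, V i ∈ derivedSeries (FreeGroup (Fin 2)) d) ∧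
      Shadow r V := by
  have key : ∀ e : ℕ, ∃ V : Fin n → FreeGroup (Fin 2),
      (∀ i, V i ∈ derivedSeries (FreeGroup (Fin 2)) (e + 2)) ∧ Shadow r V := by
    intro e
    induction e with
    | zero => exact ⟨wd, wd_mem, shadow_wd r⟩
    | succ e ih =>
      obtain ⟨V, hV, hS⟩ := ih
      refine ⟨fun i => FreeGroup.lift wd (V i), fun i => ?_, hS.comp (shadow_wd _)⟩
      have h1 := lift_mem_derived (wd (n := 2)) wd_mem (e + 2)
      have h2 := h1 (Subgroup.mem_map_of_mem _ (hV i))
      exact derivedSeries_antitone _ (by omega) h2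
  obtain ⟨V, hV, hS⟩ := key d
  exact ⟨V, fun i => derivedSeries_antitone _ (by omega) (hV i), hS⟩

/-- **The embedding.** -/
theorem embedding {n : ℕ} (r : FreeGroup (Fin n)) (V : Fin n → FreeGroup (Fin 2))
    (hV : Shadow r V) :
    ∃ (j : OneRel r →* OneRel (FreeGroup.lift V r)),
      Function.Injective j ∧
      (∀ i, j (PresentedGroup.of i) =
        ev (fun k => (PresentedGroup.of k : OneRel (FreeGroup.lift V r))) (V i).toWord) ∧
      ∀ h : OneRel (FreeGroup.lift V r), ∃ g : OneRel r, ∀ u : List (Option (Fin n) × Bool),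
        evalAt (FreeGroup.lift V r) h (subst (fun i => (V i).toWord) u) = 1 →
          evalAt r g u = 1 := by
  classical
  set R := FreeGroup.lift V r with hR
  have hc : ∀ i : Fin n, ev (fun k => (PresentedGroup.of k : OneRel R)) (V i).toWord =
      FreeGroup.lift (fun k => (PresentedGroup.of k : OneRel R)) (V i) := by
    intro i
    rw [ev_eq_lift, FreeGroup.mk_toWord]
  have hrel : ∀ w ∈ ({r} : Set (FreeGroup (Fin n))),
      FreeGroup.lift (fun i : Fin n =>
        FreeGroup.lift (fun k => (PresentedGroup.of k : OneRel R)) (V i)) w = 1 := by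
    intro w hw
    rw [Set.mem_singleton_iff.1 hw]
    have h1 : FreeGroup.lift (fun i : Fin n =>
        FreeGroup.lift (fun k => (PresentedGroup.of k : OneRel R)) (V i)) =
        (PresentedGroup.mk ({R} : Set (FreeGroup (Fin 2)))).comp (FreeGroup.lift V) := by
      apply FreeGroup.ext_hom
      intro i
      rw [FreeGroup.lift_apply_of, MonoidHom.comp_apply, FreeGroup.lift_apply_of]
      have h2 : FreeGroup.lift (fun k => (PresentedGroup.of k : OneRel R)) =
          PresentedGroup.mk ({R} : Set (FreeGroup (Fin 2))) := by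
        apply FreeGroup.ext_hom
        intro k
        simp [PresentedGroup.of]
      rw [h2]
    rw [h1, MonoidHom.comp_apply, ← hR]
    exact PresentedGroup.one_of_mem (rels := {R}) (Set.mem_singleton _)
  have hshadow : ∀ h : OneRel R, ∃ g : OneRel r, ∀ u : List (Option (Fin n) × Bool),
      evalAt R h (subst (fun i => (V i).toWord) u) = 1 → evalAt r g u = 1 := by
    intro h
    obtain ⟨g, hg⟩ := hV h
    refine ⟨g, fun u hu => ?_⟩
    rw [evalAt_eq, ev_subst, ev_eq_lift] at hu
    rw [evalAt_eq, ev_eq_lift]
    apply hg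
    simpa only [hc] using hu
  refine ⟨PresentedGroup.toGroup hrel, ?_, fun i => ?_, hshadow⟩
  · rw [injective_iff_map_eq_one]
    intro g₀ hg₀
    obtain ⟨w, rfl⟩ := PresentedGroup.mk_surjective ({r} : Set (FreeGroup (Fin n))) g₀
    obtain ⟨g, hg⟩ := hshadow 1
    have h1 := hg (cst w.toWord)
    have e1 : ∀ (g : OneRel r), evalAt r g (cst w.toWord) = PresentedGroup.mk _ w := by
      intro g
      rw [evalAt_eq]
      have h2 : ev (val (fun i => PresentedGroup.of i) g) (cst w.toWord) =
          ev (fun i => (PresentedGroup.of i : OneRel r)) w.toWord := ev_map _ some _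
      rw [h2, ev_eq_lift, FreeGroup.mk_toWord]
      have h3 : FreeGroup.lift (fun i => (PresentedGroup.of i : OneRel r)) =
          PresentedGroup.mk ({r} : Set (FreeGroup (Fin n))) := by
        apply FreeGroup.ext_hom
        intro k
        simp [PresentedGroup.of]
      rw [h3]
    rw [e1] at h1
    apply h1
    rw [evalAt_eq, ev_subst]
    have h2 : ev (val (fun i => ev (fun k => (PresentedGroup.of k : OneRel R))
        (V i).toWord) 1) (cst w.toWord) =
        ev (fun i => ev (fun k => (PresentedGroup.of k : OneRel R))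
          (V i).toWord) w.toWord := ev_map _ some _
    rw [h2, ev_eq_lift, FreeGroup.mk_toWord]
    simp only [hc]
    exact hg₀
  · rw [PresentedGroup.toGroup.of, hc]

theorem solvesAll_iff {n : ℕ} (r : FreeGroup (Fin n)) (R : FreeGroup (Fin 2))
    (c : Fin n → List (Fin 2 × Bool)) (j : OneRel r →* OneRel R)
    (hj : ∀ i, j (PresentedGroup.of i) = ev (fun k => (PresentedGroup.of k : OneRel R)) (c i))
    (hs : ∀ h : OneRel R, ∃ g : OneRel r, ∀ u : List (Option (Fin n) × Bool),
      evalAt R h (subst c u) = 1 → evalAt r g u = 1) (us : List (List (Option (Fin n) × Bool))) :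
    SolvesAll r us ↔ SolvesAll R (us.map (subst c)) := by
  constructor
  · rintro ⟨g, hg⟩
    refine ⟨j g, fun v hv => ?_⟩
    obtain ⟨u, hu, rfl⟩ := List.mem_map.1 hv
    have h1 := map_ev j (val (fun i => PresentedGroup.of i) g) u
    rw [← evalAt_eq, hg u hu, map_one] at h1
    rw [evalAt_eq, ev_subst]
    rw [h1]
    congr 1
    funext o
    cases o with
    | none => rfl
    | some i => exact (hj i).symm
  · rintro ⟨h, hh⟩
    obtain ⟨g, hg⟩ := hs h
    exact ⟨g, fun u hu => hg u (hh _ (List.mem_map.2 ⟨u, hu, rfl⟩))⟩

theorem oneVarEq_iff_solvesAll {n : ℕ} (r : FreeGroup (Fin n)) (u : List (Option (Fin n) × Bool)) :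
    OneVarEq r u ↔ SolvesAll r [u] := by
  simp [OneVarEq, SolvesAll]

theorem reductions {n : ℕ} (r : FreeGroup (Fin n)) (R : FreeGroup (Fin 2))
    (c : Fin n → List (Fin 2 × Bool)) (j : OneRel r →* OneRel R)
    (hj : ∀ i, j (PresentedGroup.of i) = ev (fun k => (PresentedGroup.of k : OneRel R)) (c i))
    (hs : ∀ h : OneRel R, ∃ g : OneRel r, ∀ u : List (Option (Fin n) × Bool),
      evalAt R h (subst c u) = 1 → evalAt r g u = 1) :
    ManyOneReducible (OneVarEq r) (OneVarEq R) ∧ ManyOneReducible (SolvesAll r) (SolvesAll R) := by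
  constructor
  · refine ⟨subst c, (primrec_subst c).to_comp, fun u => ?_⟩
    rw [oneVarEq_iff_solvesAll, oneVarEq_iff_solvesAll]
    exact solvesAll_iff r R c j hj hs [u]
  · refine ⟨fun us => us.map (subst c), ?_, fun us => solvesAll_iff r R c j hj hs us⟩
    exact (Primrec.list_map Primrec.id ((primrec_subst c).comp Primrec.snd).to₂).to_comp

end Pool.Agent.Helper3K.TG
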