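import Pool.Agent.Helper3K.TG.Base

/-!
# First step: generators are replaced by commutators of pairs of new generators
-/

set_option autoImplicit false

namespace Pool.Agent.Helper3K.TG

open Pool.Agent.N582.BS Pool.Agent.Helper3K.OV
open scoped commutatorElement

open Classical in
/-- The function with value `g` on the ray `1, τ, τ², …` and value `1` elsewhere. -/
noncomputable def ray {B D : Type} [Group B] [Group D] (τ : B) (g : D) (z : B) : D :=
  if ∃ k : ℕ, z = τ ^ k then g else 1

theorem ray_one {B D : Type} [Group B] [Group D] (τ : B) (g : D) : ray τ g 1 = g :=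
  if_pos ⟨0, by simp⟩

theorem ray_inv {B D : Type} [Group B] [Group D] {τ : B} (hτ : ∀ k : ℕ, τ ^ (k + 1) ≠ 1) (g : D) :
    ray τ g τ⁻¹ = 1 := by
  apply if_neg
  rintro ⟨k, hk⟩
  apply hτ k
  rw [pow_succ', ← hk, mul_inv_cancel]

theorem ray_step {B D : Type} [Group B] [Group D] (τ : B) (g : D) {z : B} (hz : z ≠ 1) :
    ray τ g (τ⁻¹ * z) = ray τ g z := by
  unfold ray
  have : (∃ k : ℕ, τ⁻¹ * z = τ ^ k) ↔ ∃ k : ℕ, z = τ ^ k := by
    constructor
    · rintro ⟨k, hk⟩
      exact ⟨k + 1, by rw [pow_succ', ← hk, mul_inv_cancel_left]⟩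
    · rintro ⟨k, hk⟩
      cases k with
      | zero => exact absurd (by simpa using hk) hz
      | succ k => exact ⟨k, by rw [hk, pow_succ', inv_mul_cancel_left]⟩
  by_cases h : ∃ k : ℕ, z = τ ^ k
  · rw [if_pos h, if_pos (this.2 h)]
  · rw [if_neg h, if_neg (fun h' => h (this.1 h'))]

theorem exists_labels {B D : Type} [CommGroup B] [Group D] [DecidableEq B] (σ τ : B) (g : D)
    (h : (∀ k : ℕ, σ ^ (k + 1) ≠ 1) ∨ (∀ k : ℕ, τ ^ (k + 1) ≠ 1)) :
    ∃ U V : D ≀ᵣ B, U.right = σ ∧ V.right = τ ∧ (⁅U, V⁆ : D ≀ᵣ B).right = 1 ∧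
      ∀ z, (⁅U, V⁆ : D ≀ᵣ B).left z = if z = 1 then g else 1 := by
  rcases h with h | h
  · refine ⟨⟨1, σ⟩, ⟨ray σ g⁻¹, τ⟩, rfl, rfl, (comm_left _ _ 1).2, fun z => ?_⟩
    rw [(comm_left _ _ z).1]
    simp only [Pi.one_apply, one_mul, inv_one, mul_one]
    by_cases hz : z = 1
    · subst hz
      rw [if_pos rfl, mul_one, ray_inv h, ray_one, one_mul, inv_inv]
    · rw [if_neg hz, ray_step σ _ hz, mul_inv_cancel]
  · refine ⟨⟨ray τ g, σ⟩, ⟨1, τ⟩, rfl, rfl, (comm_left _ _ 1).2, fun z => ?_⟩
    rw [(comm_left _ _ z).1]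
    simp only [Pi.one_apply, inv_one, mul_one]
    by_cases hz : z = 1
    · subst hz
      rw [if_pos rfl, mul_one, ray_inv h, ray_one, inv_one, mul_one]
    · rw [if_neg hz, ray_step τ _ hz, mul_inv_cancel]

/-- The word `r` with the generator `i` replaced by the commutator of the generators `i` and
`n + i`. -/
def r1 {n : ℕ} (r : FreeGroup (Fin n)) : FreeGroup (Fin (n + n)) :=
  FreeGroup.lift (fun i => ⁅FreeGroup.of (Fin.castAdd n i), FreeGroup.of (Fin.natAdd n i)⁆) r

theorem r1_mem {n : ℕ} (r : FreeGroup (Fin n)) : r1 r ∈ commutator (FreeGroup (Fin (n + n))) := by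
  unfold r1
  induction r using FreeGroup.induction_on with
  | C1 => rw [map_one]; exact one_mem _
  | of x =>
    rw [FreeGroup.lift_apply_of]
    exact Subgroup.commutator_mem_commutator (Subgroup.mem_top _) (Subgroup.mem_top _)
  | inv_of x ih => rw [map_inv]; exact inv_mem ih
  | mul x y hx hy => rw [map_mul]; exact mul_mem hx hy

theorem lift_r1 {n : ℕ} {M : Type} [Group M] (f : Fin (n + n) → M) (r : FreeGroup (Fin n)) :
    FreeGroup.lift f (r1 r) =
      FreeGroup.lift (fun i => ⁅f (Fin.castAdd n i), f (Fin.natAdd n i)⁆) r := by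
  have : (FreeGroup.lift f).comp (FreeGroup.lift
      (fun i => ⁅FreeGroup.of (Fin.castAdd n i), FreeGroup.of (Fin.natAdd n i)⁆)) =
      FreeGroup.lift (fun i => ⁅f (Fin.castAdd n i), f (Fin.natAdd n i)⁆) := by
    apply FreeGroup.ext_hom
    intro i
    simp [map_commutatorElement]
  exact DFunLike.congr_fun this r

theorem toHom1 {n : ℕ} {M : Type} [Group M] (r : FreeGroup (Fin n)) (y z : Fin n → M)
    (h : FreeGroup.lift (fun i => ⁅y i, z i⁆) r = 1) :
    ∃ Φ : OneRel (r1 r) →* M, (∀ i, Φ (PresentedGroup.of (Fin.castAdd n i)) = y i) ∧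
      ∀ i, Φ (PresentedGroup.of (Fin.natAdd n i)) = z i := by
  let f : Fin (n + n) → M := Fin.addCases y z
  have hf : ∀ w ∈ ({r1 r} : Set (FreeGroup (Fin (n + n)))), FreeGroup.lift f w = 1 := by
    intro w hw
    rw [Set.mem_singleton_iff.1 hw, lift_r1]
    simp only [f, Fin.addCases_left, Fin.addCases_right]
    exact h
  refine ⟨PresentedGroup.toGroup hf, fun i => ?_, fun i => ?_⟩
  · rw [PresentedGroup.toGroup.of]; simp only [f, Fin.addCases_left]
  · rw [PresentedGroup.toGroup.of]; simp only [f, Fin.addCases_right]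

theorem lift_of_self {n : ℕ} (r : FreeGroup (Fin n)) :
    FreeGroup.lift (fun i => (PresentedGroup.of i : OneRel r)) r = 1 := by
  have h1 : FreeGroup.lift (fun i => (PresentedGroup.of i : OneRel r)) =
      PresentedGroup.mk ({r} : Set (FreeGroup (Fin n))) := by
    apply FreeGroup.ext_hom
    intro i
    simp [PresentedGroup.of]
  rw [h1]
  exact PresentedGroup.one_of_mem (rels := {r}) (Set.mem_singleton _)

theorem lift_one_eq {A M : Type} [Group M] (w : FreeGroup A) :
    FreeGroup.lift (fun _ : A => (1 : M)) w = 1 := by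
  have : FreeGroup.lift (fun _ : A => (1 : M)) = 1 := by
    apply FreeGroup.ext_hom
    intro i
    simp
  rw [this]; rfl

/-- **First step.** -/
theorem step1 {n : ℕ} (r : FreeGroup (Fin n)) :
    AC (fun i => (PresentedGroup.of i : OneRel r))
      (fun i => ⁅(PresentedGroup.of (Fin.castAdd n i) : OneRel (r1 r)),
        (PresentedGroup.of (Fin.natAdd n i) : OneRel (r1 r))⁆) := by
  classical
  apply AC.of_wreath
  intro x
  -- the exponent sums
  have hp : ∀ i : Fin n, ∃ Φ : OneRel (r1 r) →* Multiplicative ℤ,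
      (∀ j, Φ (PresentedGroup.of (Fin.castAdd n j)) = Multiplicative.ofAdd (if j = i then 1 else 0)) ∧
      ∀ j, Φ (PresentedGroup.of (Fin.natAdd n j)) = 1 := by
    intro i
    apply toHom1
    simp [lift_one_eq]
  have hq : ∀ i : Fin n, ∃ Φ : OneRel (r1 r) →* Multiplicative ℤ,
      (∀ j, Φ (PresentedGroup.of (Fin.castAdd n j)) = 1) ∧
      ∀ j, Φ (PresentedGroup.of (Fin.natAdd n j)) = Multiplicative.ofAdd (if j = i then 1 else 0) := by
    intro i
    apply toHom1
    simp [lift_one_eq]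
  choose p hp1 hp2 using hp
  choose q hq1 hq2 using hq
  have hab : ∀ i : Fin n, ∃ ab : ℤ × ℤ, (ab.1 ≠ 0 ∨ ab.2 ≠ 0) ∧
      ab.1 * (p i x).toAdd + ab.2 * (q i x).toAdd = 0 := by
    intro i
    by_cases hw : (p i x).toAdd = 0
    · exact ⟨(1, 0), Or.inl one_ne_zero, by rw [hw]; ring⟩
    · exact ⟨((q i x).toAdd, -(p i x).toAdd), Or.inr (by simpa using hw), by ring⟩
  choose ab hab0 hab1 using hab
  have htf : ∀ (i : Fin n) (a : ℤ), a ≠ 0 → ∀ k : ℕ,
      (Pi.mulSingle i (Multiplicative.ofAdd a) : Fin n → Multiplicative ℤ) ^ (k + 1) ≠ 1 := by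
    intro i a ha k h
    have h1 := congrFun h i
    rw [Pi.pow_apply, Pi.mulSingle_eq_same, Pi.one_apply, ← ofAdd_nsmul] at h1
    have h2 : (k + 1) • a = 0 := Multiplicative.ofAdd.injective h1
    rw [nsmul_eq_mul] at h2
    rcases mul_eq_zero.1 h2 with h3 | h3
    · have : ((k : ℤ) + 1) = 0 := by exact_mod_cast h3
      omega
    · exact ha h3
  have hUV := fun i : Fin n => exists_labels
    (Pi.mulSingle i (Multiplicative.ofAdd (ab i).1) : Fin n → Multiplicative ℤ)
    (Pi.mulSingle i (Multiplicative.ofAdd (ab i).2)) (PresentedGroup.of i : OneRel r)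
    ((hab0 i).imp (fun h => htf i _ h) (fun h => htf i _ h))
  choose U V hU hV hR hL using hUV
  obtain ⟨Θ, hΘ1, hΘ2⟩ := toHom1 r U V (by
    obtain ⟨a1, a2⟩ := lift_base (fun i => (⁅U i, V i⁆ : OneRel r ≀ᵣ (Fin n → Multiplicative ℤ))) hR r
    ext z
    · rw [a2 z]
      by_cases hz : z = 1
      · simp only [hL, hz, if_true]
        rw [lift_of_self]; rfl
      · simp only [hL, hz, if_false]
        rw [lift_one_eq]; rfl
    · rw [a1]; rfl)
  refine ⟨Fin n → Multiplicative ℤ, inferInstance, Θ, ?_, fun i => ?_⟩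
  · funext i
    have h1 : (Pi.evalMonoidHom (fun _ : Fin n => Multiplicative ℤ) i).comp
        ((RegularWreathProduct.rightHom).comp Θ) =
        (zpowGroupHom (ab i).1).comp (p i) * (zpowGroupHom (ab i).2).comp (q i) := by
      apply PresentedGroup.ext
      intro j
      refine Fin.addCases (fun j => ?_) (fun j => ?_) j
      · simp only [MonoidHom.comp_apply, MonoidHom.mul_apply, hΘ1, hp1, hq1, hU,
          RegularWreathProduct.rightHom_eq_right, Pi.evalMonoidHom_apply, zpowGroupHom_apply,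
          one_zpow, mul_one]
        by_cases hj : j = i
        · subst hj
          simp [← ofAdd_zsmul]
        · rw [Pi.mulSingle_eq_of_ne (fun h => hj h.symm)]
          simp [hj]
      · simp only [MonoidHom.comp_apply, MonoidHom.mul_apply, hΘ2, hp2, hq2, hV,
          RegularWreathProduct.rightHom_eq_right, Pi.evalMonoidHom_apply, zpowGroupHom_apply,
          one_zpow, one_mul]
        by_cases hj : j = i
        · subst hj
          simp [← ofAdd_zsmul]
        · rw [Pi.mulSingle_eq_of_ne (fun h => hj h.symm)]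
          simp [hj]
    have h2 := DFunLike.congr_fun h1 x
    simp only [MonoidHom.comp_apply, MonoidHom.mul_apply, RegularWreathProduct.rightHom_eq_right,
      zpowGroupHom_apply, Pi.evalMonoidHom_apply] at h2
    rw [h2]
    apply Multiplicative.toAdd.injective
    simp only [toAdd_mul, toAdd_zpow, smul_eq_mul, Pi.one_apply, toAdd_one]
    exact hab1 i
  · rw [map_commutatorElement, hΘ1, hΘ2]
    exact ⟨hR i, by rw [hL i, if_pos rfl]⟩

end Pool.Agent.Helper3K.TG
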