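import Pool.Agent.Helper3K.TG.Labels

/-!
# The case `l₂ = 0`, and the second step
-/

set_option autoImplicit false

namespace Pool.Agent.Helper3K.TG

open Pool.Agent.N582.BS Pool.Agent.Helper3K.OV
open scoped commutatorElement

section

variable {D : Type} [Group D] (m : ℕ)

/-- The value of a factor for labels on the edges `Y`. -/
theorem fac_vert (f : ℤ → D) (a : ℕ) (z : ℤ) :
    (plq m (RegularWreathProduct.inl (Multiplicative.ofAdd 1) : D ≀ᵣ (Multiplicative ℤ))
      ⟨fun z => f z.toAdd, 1⟩ a).left (Multiplicative.ofAdd z) =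
      (f (z - (bA m : ℤ) ^ (a + 1))) ^ (bM m ^ (a + 1)) *
        (f (z - (bA m : ℤ) ^ (a + 1) - 1) * (f (z - (bA m : ℤ) ^ (a + 1)))⁻¹) *
        ((f (z - (bA m : ℤ) ^ (a + 1))) ^ (bM m ^ (a + 1)))⁻¹ := by
  set Y : D ≀ᵣ (Multiplicative ℤ) := ⟨fun z => f z.toAdd, 1⟩ with hY
  have hYr : Y.right = 1 := rfl
  have hYl : ∀ z, Y.left z = f z.toAdd := fun _ => rfl
  have hz2 : (zz m (RegularWreathProduct.inl (Multiplicative.ofAdd 1)) Y a).right =
      Multiplicative.ofAdd ((bA m : ℤ) ^ (a + 1)) := by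
    rw [zz, RegularWreathProduct.mul_right, pow_right, pow_right, hYr,
      RegularWreathProduct.right_inl, ← ofAdd_nsmul, one_pow, mul_one]
    congr 1
    rw [nsmul_eq_mul]
    push_cast
    ring
  have hz1 : (zz m (RegularWreathProduct.inl (Multiplicative.ofAdd 1)) Y a).left
      (Multiplicative.ofAdd z) = (f (z - (bA m : ℤ) ^ (a + 1))) ^ (bM m ^ (a + 1)) := by
    rw [zz, RegularWreathProduct.mul_left, Pi.mul_apply, pow_right, pow_left_base _ hYr, hYl,
      RegularWreathProduct.right_inl, ← ofAdd_nsmul]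
    simp only [inl_pow_left, Pi.one_apply, one_mul, toAdd_mul, toAdd_inv, toAdd_ofAdd]
    congr 2
    rw [nsmul_eq_mul]
    push_cast
    ring
  rw [plq, (conj_left _ _ (comm_left _ _ 1).2 _).1, hz1, (comm_left _ _ _).1, hz2, hYl, hYl,
    RegularWreathProduct.left_inl, RegularWreathProduct.right_inl]
  simp only [Pi.one_apply, one_mul, inv_one, toAdd_mul, toAdd_inv, toAdd_ofAdd]
  have e1 : -(bA m : ℤ) ^ (a + 1) + z = z - (bA m : ℤ) ^ (a + 1) := by ring
  have e2 : -1 + (-(bA m : ℤ) ^ (a + 1) + z) = z - (bA m : ℤ) ^ (a + 1) - 1 := by ring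
  rw [e2, e1]
  simp only [mul_one]

/-- Relations between the first coordinates. -/
theorem rel_first {c₁ c₂ c₃ c₄ δ : ℤ} {a b c f : ℕ} (h₁ : |c₁| ≤ 1) (h₂ : |c₂| ≤ 1) (h₃ : |c₃| ≤ 1)
    (h₄ : |c₄| ≤ 1) (hδ : |δ| ≤ m + 4) (ha : a < 5 * m) (hb : b < 5 * m) (hc : c < 5 * m)
    (hf : f < 5 * m)
    (h : c₁ * (bA m : ℤ) ^ (a + 1) + c₂ * (bA m : ℤ) ^ (b + 1) + c₃ * (bA m : ℤ) ^ (c + 1) +
      c₄ * (bA m : ℤ) ^ (f + 1) + δ = 0) :
    δ = 0 ∧ ∀ t, t < 5 * m → comb c₁ c₂ c₃ c₄ a b c f t = 0 := by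
  have hm0 : (0 : ℤ) ≤ m := by positivity
  apply exp_zero (b := (bA m : ℤ)) (D := m + 4) (by unfold bA; push_cast; linarith) (5 * m)
  · intro t
    have := abs_comb h₁ h₂ h₃ h₄ a b c f t
    linarith
  · exact hδ
  · rw [S_comb ha hb hc hf]; exact h

theorem vert (g : ℕ → D) :
    ∃ X Y : D ≀ᵣ (Multiplicative ℤ), X.right = Multiplicative.ofAdd 1 ∧
      Y.right = Multiplicative.ofAdd 0 ∧ Spec m g X Y := by
  classical
  let P : ℕ → ℤ := fun a => (bA m : ℤ) ^ (a + 1)
  let seg : ℕ → ℕ → ℤ → Prop := fun j t ζ => j < m ∧ t ≤ j ∧ ζ = -P j - 1 - t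
  have seg_unique : ∀ j t j' t' ζ, seg j t ζ → seg j' t' ζ → j = j' := by
    rintro j t j' t' ζ ⟨hj, ht, he⟩ ⟨hj', ht', he'⟩
    by_contra hne
    have := (rel_first m (c₁ := 1) (c₂ := -1) (c₃ := 0) (c₄ := 0) (δ := t - t') (a := j) (b := j')
      (c := j) (f := j) (by norm_num) (by norm_num) (by norm_num) (by norm_num)
      (by rw [abs_le]; constructor <;> omega) (by omega) (by omega) (by omega) (by omega)
      (by rw [he] at he'; linear_combination -he')).2 j (by omega)
    simp [comb, hne] at this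
  have no_pos : ∀ j j' (s : ℤ), j < m → j' < m → 1 ≤ s → s ≤ m + 1 → -P j ≠ -P j' - s := by
    intro j j' s hj hj' hs1 hs2 h
    have := (rel_first m (c₁ := 1) (c₂ := -1) (c₃ := 0) (c₄ := 0) (δ := -s) (a := j) (b := j')
      (c := j) (f := j) (by norm_num) (by norm_num) (by norm_num) (by norm_num)
      (by rw [abs_le]; constructor <;> omega) (by omega) (by omega) (by omega) (by omega)
      (by linear_combination -h)).1
    omega
  let f : ℤ → D := fun ζ => if h : ∃ j t, seg j t ζ then g h.choose else 1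
  have hf1 : ∀ j t ζ, seg j t ζ → f ζ = g j := by
    intro j t ζ h
    have hex : ∃ j t, seg j t ζ := ⟨j, t, h⟩
    have hfe : f ζ = g hex.choose := dif_pos hex
    obtain ⟨t', ht'⟩ := hex.choose_spec
    rw [hfe]
    congr 1
    exact (seg_unique j t _ t' ζ h ht').symm
  have hf0 : ∀ ζ, f ζ ≠ 1 → ∃ j t, seg j t ζ := by
    intro ζ h
    by_contra hcon
    exact h (dif_neg hcon)
  -- the classification of the nontrivial commutators
  have hclass : ∀ ζ, f (ζ - 1) * (f ζ)⁻¹ ≠ 1 → ∃ j, j < m ∧ ∃ ε : ℤ, (ε = 0 ∨ ε = j + 1) ∧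
      ζ = -P j - ε ∧ ((f (ζ - 1) * (f ζ)⁻¹ = g j ∧ f ζ = 1) ∨
        (f (ζ - 1) * (f ζ)⁻¹ = (g j)⁻¹ ∧ f ζ = g j)) := by
    intro ζ hne
    by_cases h1 : ∃ j t, seg j t (ζ - 1)
    · obtain ⟨j, t, hs⟩ := h1
      have hfz := hf1 j t _ hs
      have hse := hs.2.2
      have ht : t = 0 := by
        by_contra ht
        have h2 : seg j (t - 1) ζ := ⟨hs.1, by have := hs.2.1; omega, by
          have : ((t - 1 : ℕ) : ℤ) = t - 1 := by omega
          rw [this]; linear_combination hse⟩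
        rw [hfz, hf1 _ _ _ h2, mul_inv_cancel] at hne
        exact hne rfl
      have hζ : ζ = -P j := by rw [ht] at hse; push_cast at hse; linear_combination hse
      have hfz' : f ζ = 1 := by
        by_contra hc
        obtain ⟨j', t', hj', ht', hs'⟩ := hf0 _ hc
        refine no_pos j j' (1 + t') hs.1 hj' (by omega) (by omega) ?_
        rw [← hζ, hs']; ring
      exact ⟨j, hs.1, 0, Or.inl rfl, by rw [hζ]; ring,
        Or.inl ⟨by rw [hfz, hfz', inv_one, mul_one], hfz'⟩⟩
    · have hfz : f (ζ - 1) = 1 := dif_neg h1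
      rw [hfz, one_mul] at hne
      have hne' : f ζ ≠ 1 := fun h => hne (by rw [h, inv_one])
      obtain ⟨j, t, hs⟩ := hf0 _ hne'
      have hfz' := hf1 j t _ hs
      have hse := hs.2.2
      refine ⟨j, hs.1, j + 1, Or.inr rfl, ?_, Or.inr ⟨by rw [hfz, hfz', one_mul], hfz'⟩⟩
      have ht : t = j := by
        by_contra ht
        apply h1
        refine ⟨j, t + 1, hs.1, by have := hs.2.1; omega, ?_⟩
        push_cast
        linear_combination hse
      rw [ht] at hse
      linear_combination hse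
  -- the value of a factor
  have hval : ∀ z a, (plq m (RegularWreathProduct.inl (Multiplicative.ofAdd 1) :
      D ≀ᵣ (Multiplicative ℤ)) ⟨fun z => f z.toAdd, 1⟩ a).left (Multiplicative.ofAdd z) =
      f (z - P a - 1) * (f (z - P a))⁻¹ := by
    intro z a
    rw [fac_vert]
    show (f (z - P a)) ^ _ * (f (z - P a - 1) * (f (z - P a))⁻¹) * ((f (z - P a)) ^ _)⁻¹ = _
    by_cases h : f (z - P a - 1) * (f (z - P a))⁻¹ = 1
    · rw [h, mul_one, mul_inv_cancel]
    · obtain ⟨j, _, ε, _, _, h1 | h1⟩ := hclass _ h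
      · rw [h1.2, one_pow, one_mul, inv_one, mul_one]
      · rw [h1.1, h1.2]
        have : Commute ((g j) ^ (bM m ^ (a + 1))) (g j)⁻¹ := ((Commute.refl (g j)).pow_left _).inv_right
        rw [this.eq, mul_inv_cancel_right]
  refine ⟨RegularWreathProduct.inl (Multiplicative.ofAdd 1), ⟨fun z => f z.toAdd, 1⟩, rfl, rfl,
    ?_, ?_⟩
  · intro j hj
    refine ⟨0, by norm_num, ?_, ?_⟩
    · refine (hval 0 (j + m * 0)).trans ?_
      rw [mul_zero, add_zero]
      have e1 : f (0 - P j - 1) = g j := hf1 j 0 _ ⟨hj, by omega, by simp⟩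
      have e2 : f (0 - P j) = 1 := by
        by_contra hc
        obtain ⟨j', t', hj', ht', hs'⟩ := hf0 _ hc
        refine no_pos j j' (1 + t') hj hj' (by omega) (by omega) ?_
        linear_combination hs'
      rw [e1, e2, inv_one, mul_one]
    · intro k' hk' hne
      refine (hval 0 (j + m * k')).trans ?_
      by_contra hc
      obtain ⟨j', hj', ε, hε, he, _⟩ := hclass _ hc
      have hlt : j + m * k' < 5 * m := by
        have : m * k' ≤ m * 4 := Nat.mul_le_mul_left _ (by omega)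
        omega
      have hge : m ≤ m * k' := Nat.le_mul_of_pos_right m (by omega)
      have := (rel_first m (c₁ := 1) (c₂ := -1) (c₃ := 0) (c₄ := 0) (δ := -ε) (a := j + m * k')
        (b := j') (c := j') (f := j') (by norm_num) (by norm_num) (by norm_num) (by norm_num)
        (by rw [abs_le]; rcases hε with rfl | rfl <;> constructor <;> omega) hlt (by omega)
        (by omega) (by omega)
        (by
          have he' : 0 - P (j + m * k') = -P j' - ε := he
          linear_combination -he')).2 (j + m * k') hlt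
      have hne' : j + m * k' ≠ j' := by omega
      simp [comb, hne'] at this
  · intro zz hz a a' ha ha' haa h1 h2
    obtain ⟨z, hzz⟩ : ∃ z : ℤ, Multiplicative.ofAdd z = zz := ⟨zz.toAdd, rfl⟩
    subst hzz
    have hz0 : z ≠ 0 := fun h => hz (by rw [h]; rfl)
    rw [hval] at h1 h2
    rw [hval, hval]
    obtain ⟨j, hj, ε, hε, he, hv⟩ := hclass _ h1
    obtain ⟨j', hj', ε', hε', he', hv'⟩ := hclass _ h2
    by_cases hjj : j = j'
    · subst hjj
      rcases hv with ⟨hv, _⟩ | ⟨hv, _⟩ <;> rcases hv' with ⟨hv', _⟩ | ⟨hv', _⟩ <;> rw [hv, hv']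
      · exact (Commute.refl _).inv_right
      · exact (Commute.refl _).inv_left
    · exfalso
      have hne : a ≠ a' := fun h => haa (by rw [h])
      obtain ⟨r1, r2⟩ := rel_first m (c₁ := 1) (c₂ := -1) (c₃ := -1) (c₄ := 1) (δ := ε' - ε)
        (a := a) (b := j) (c := a') (f := j') (by norm_num) (by norm_num) (by norm_num)
        (by norm_num)
        (by rw [abs_le]; rcases hε with rfl | rfl <;> rcases hε' with rfl | rfl <;>
          constructor <;> omega) ha (by omega) ha' (by omega)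
        (by linear_combination -he + he')
      have q1 := r2 j (by omega)
      unfold comb at q1
      have hja : j = a := by
        by_contra hc
        rw [if_neg hc, if_pos rfl, if_neg hjj] at q1
        split_ifs at q1 <;> norm_num at q1
      have hε0 : ε = 0 := by
        rcases hε with h | h
        · exact h
        · rcases hε' with h' | h' <;> omega
      apply hz0
      rw [hε0, hja] at he
      linear_combination he

end

/-! ### The second step -/

/-- The word `ρ` with the generator `j` replaced by the word `W j` in two generators. -/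
def r2 {m : ℕ} (ρ : FreeGroup (Fin m)) : FreeGroup (Fin 2) :=
  FreeGroup.lift (fun j : Fin m => W m (FreeGroup.of 0) (FreeGroup.of 1) (j : ℕ)) ρ

theorem lift_r2 {m : ℕ} {M : Type} [Group M] (f : Fin 2 → M) (ρ : FreeGroup (Fin m)) :
    FreeGroup.lift f (r2 ρ) = FreeGroup.lift (fun j : Fin m => W m (f 0) (f 1) (j : ℕ)) ρ := by
  have : (FreeGroup.lift f).comp (FreeGroup.lift
      (fun j : Fin m => W m (FreeGroup.of 0) (FreeGroup.of 1) (j : ℕ))) =
      FreeGroup.lift (fun j : Fin m => W m (f 0) (f 1) (j : ℕ)) := by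
    apply FreeGroup.ext_hom
    intro i
    simp [map_W]
  exact DFunLike.congr_fun this ρ

theorem toHom2 {m : ℕ} {M : Type} [Group M] (ρ : FreeGroup (Fin m)) (X Y : M)
    (h : FreeGroup.lift (fun j : Fin m => W m X Y (j : ℕ)) ρ = 1) :
    ∃ Φ : OneRel (r2 ρ) →* M, Φ (PresentedGroup.of 0) = X ∧ Φ (PresentedGroup.of 1) = Y := by
  let f : Fin 2 → M := ![X, Y]
  have hf : ∀ w ∈ ({r2 ρ} : Set (FreeGroup (Fin 2))), FreeGroup.lift f w = 1 := by
    intro w hw
    rw [Set.mem_singleton_iff.1 hw, lift_r2]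
    simpa [f] using h
  refine ⟨PresentedGroup.toGroup hf, ?_, ?_⟩
  · rw [PresentedGroup.toGroup.of]; rfl
  · rw [PresentedGroup.toGroup.of]; rfl

theorem W_comm {m : ℕ} {M : Type} [CommGroup M] (X Y : M) (j : ℕ) : W m X Y j = 1 := by
  unfold W
  apply List.prod_eq_one
  intro x hx
  rw [List.mem_map] at hx
  obtain ⟨k, _, rfl⟩ := hx
  rw [plq, commutatorElement_def]
  simp [mul_comm]

/-- **Second step.** -/
theorem step2 {m : ℕ} (ρ : FreeGroup (Fin m)) (hρ : ρ ∈ commutator (FreeGroup (Fin m))) :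
    AC (fun j => (PresentedGroup.of j : OneRel ρ))
      (fun j : Fin m => W m (PresentedGroup.of 0 : OneRel (r2 ρ)) (PresentedGroup.of 1) (j : ℕ)) := by
  classical
  apply AC.of_wreath
  intro x
  obtain ⟨p, hp0, hp1⟩ := toHom2 (M := Multiplicative ℤ) ρ (Multiplicative.ofAdd 1) 1
    (by simp only [W_comm]; exact lift_one_eq ρ)
  obtain ⟨q, hq0, hq1⟩ := toHom2 (M := Multiplicative ℤ) ρ 1 (Multiplicative.ofAdd 1)
    (by simp only [W_comm]; exact lift_one_eq ρ)
  let g : ℕ → OneRel ρ := fun j => if h : j < m then PresentedGroup.of ⟨j, h⟩ else 1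
  have hg : ∀ j : Fin m, g j = PresentedGroup.of j := fun j => dif_pos j.2
  obtain ⟨l₁, l₂, hl, X, Y, hX, hY, hspec⟩ : ∃ l₁ l₂ : ℤ,
      l₁ * (p x).toAdd + l₂ * (q x).toAdd = 0 ∧ ∃ X Y : OneRel ρ ≀ᵣ (Multiplicative ℤ),
        X.right = Multiplicative.ofAdd l₁ ∧ Y.right = Multiplicative.ofAdd l₂ ∧ Spec m g X Y := by
    by_cases hw : (p x).toAdd = 0
    · obtain ⟨X, Y, h1, h2, h3⟩ := vert m g
      exact ⟨1, 0, by rw [hw]; ring, X, Y, h1, h2, h3⟩
    · obtain ⟨X, Y, h1, h2, h3⟩ := nonvert m g (q x).toAdd (-(p x).toAdd) (by simpa using hw)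
      exact ⟨(q x).toAdd, -(p x).toAdd, by ring, X, Y, h1, h2, h3⟩
  obtain ⟨hv1, hv2⟩ := hspec.value
  have hR : ∀ j : Fin m, (W m X Y (j : ℕ)).right = 1 := fun j => (W_eval m X Y j 1).2
  obtain ⟨Θ, hΘ0, hΘ1⟩ := toHom2 ρ X Y (by
    obtain ⟨a1, a2⟩ := lift_base (fun j : Fin m => W m X Y (j : ℕ)) hR ρ
    ext z
    · rw [a2 z]
      by_cases hz : z = 1
      · subst hz
        have : (fun j : Fin m => (W m X Y (j : ℕ)).left 1) =
            fun j => (PresentedGroup.of j : OneRel ρ) := by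
          funext j
          rw [hv1 j j.2, hg]
        rw [this, lift_of_self]; rfl
      · rw [lift_eq_one_of_commute (fun j : Fin m => (W m X Y (j : ℕ)).left z)
          (fun i i' => hv2 z hz i i' i.2 i'.2) hρ]; rfl
    · rw [a1]; rfl)
  refine ⟨Multiplicative ℤ, inferInstance, Θ, ?_, fun j => ?_⟩
  · have h1 : (RegularWreathProduct.rightHom).comp Θ =
        (zpowGroupHom l₁).comp p * (zpowGroupHom l₂).comp q := by
      apply PresentedGroup.ext
      intro i
      fin_cases i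
      · show (Θ (PresentedGroup.of 0)).right = _
        rw [hΘ0, hX]
        show _ = (p (PresentedGroup.of 0)) ^ l₁ * (q (PresentedGroup.of 0)) ^ l₂
        rw [hp0, hq0, one_zpow, mul_one, ← ofAdd_zsmul, smul_eq_mul, mul_one]
      · show (Θ (PresentedGroup.of 1)).right = _
        rw [hΘ1, hY]
        show _ = (p (PresentedGroup.of 1)) ^ l₁ * (q (PresentedGroup.of 1)) ^ l₂
        rw [hp1, hq1, one_zpow, one_mul, ← ofAdd_zsmul, smul_eq_mul, mul_one]
    have h2 : (Θ x).right = (p x) ^ l₁ * (q x) ^ l₂ := DFunLike.congr_fun h1 x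
    rw [h2]
    apply Multiplicative.toAdd.injective
    simp only [toAdd_mul, toAdd_zpow, smul_eq_mul, toAdd_one]
    exact hl
  · rw [map_W, hΘ0, hΘ1]
    exact ⟨hR j, by rw [hv1 j j.2, hg]⟩

end Pool.Agent.Helper3K.TG
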